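import Pool.Agent.Q294.SR.Conf

/-!
The loop through the arc separates: connections to the arc and to the outside in terms of the loop.
-/

set_option autoImplicit false

namespace Pool.Agent.Q294.SR

open H974

variable {m k c d : ℕ} {O : Set Edg}

open Classical in
/-- indicator of the loop -/
noncomputable def ff (O : Set Edg) (d : ℕ) (g : St) : ℤ := if Hit (nxt O) (bb d) g then 1 else 0

theorem ff_one {g : St} (h : Hit (nxt O) (bb d) g) : ff O d g = 1 := by
  unfold ff; rw [if_pos h]

theorem ff_zero {g : St} (h : ¬ Hit (nxt O) (bb d) g) : ff O d g = 0 := by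
  unfold ff; rw [if_neg h]

theorem ff_iff {g : St} : ff O d g = 1 ↔ Hit (nxt O) (bb d) g := by
  by_cases h : Hit (nxt O) (bb d) g
  · rw [ff_one h]; simp [h]
  · rw [ff_zero h]; simp [h]

theorem Cf.ff_nxt (H : Cf m k c d O) (g : St) : ff O d (nxt O g) = ff O d g := by
  by_cases h : Hit (nxt O) (bb d) g
  · rw [ff_one h, ff_one ((H.hit_nxt g).mpr h)]
  · rw [ff_zero h, ff_zero (fun h' => h ((H.hit_nxt g).mp h'))]

theorem Cf.ff_out (H : Cf m k c d O) {g : St} (h : ¬ InR m k g.1) : ff O d g = 0 :=
  ff_zero (fun h' => h (H.hit_inR h'))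

/-- The potential of the loop. -/
theorem Cf.pot (H : Cf m k c d O) : ∃ h h' : Vtx → ℤ,
    (∀ g : St, h g.1 - h' (fc g) = ff O d g) ∧ (∀ v, ¬ InR m k v → h v = 0) ∧
    (∀ g : St, ¬ InR m k g.1 → h' (fc g) = 0) ∧
    (∀ u v, Reach O u v → h u = h v) ∧ (∀ u v, DReach Oᶜ u v → h' u = h' v) ∧
    h (0, (d : ℤ)) = 1 := by
  obtain ⟨h, h', h1, h2⟩ := exists_pot (f := ff O d)
    (fun g hg => H.ff_out (fun hr => by have := hr.1; omega))
    (by
      intro g
      by_cases ho : ed g ∈ O
      · have e1 : nxt O g = stc (pt g) := by rw [nxt_open ho, sto_eq]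
        have e2 : nxt O (pt g) = stc g := by
          rw [nxt_open (by rw [ed_pt]; exact ho), sto_eq, pt_pt]
        rw [← e1, ← e2, H.ff_nxt, H.ff_nxt]; ring
      · have e1 : nxt O g = stc g := nxt_closed ho
        have e2 : nxt O (pt g) = stc (pt g) := nxt_closed (by rw [ed_pt]; exact ho)
        rw [← e1, ← e2, H.ff_nxt, H.ff_nxt])
  have hrow0 : ∀ v : Vtx, (v.2 < 0 ∨ (k : ℤ) < v.2) → h v = 0 := by
    intro v hv
    rw [h2]
    unfold hrow
    apply Finset.sum_eq_zero
    intro i _
    rw [H.ff_out (fun hr => by have := hr.2.2; simp only at this; omega),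
      H.ff_out (fun hr => by have := hr.2.2; simp only at this; omega)]
    ring
  have hup : ∀ x y : ℤ, (m : ℤ) < x → h (x, y) = h (x, y + 1) := by
    intro x y hx
    have e1 := h1 ((x, y), .ne)
    have e2 := h1 ((x, y + 1), .se)
    rw [H.ff_out (fun hr => by have := hr.2.1; simp only at this; omega)] at e1 e2
    simp only [fc] at e1 e2
    rw [show y + 1 - 1 = y by ring] at e2
    linarith
  have hout : ∀ v, ¬ InR m k v → h v = 0 := by
    rintro ⟨x, y⟩ hv
    by_cases hx : x < 0
    · rw [h2]; exact hrow_neg _ hx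
    · by_cases hy : y < 0 ∨ (k : ℤ) < y
      · exact hrow0 _ hy
      · have hxm : (m : ℤ) < x := by
          by_contra hle
          apply hv
          simp only [InR]
          omega
        have hall : ∀ n : ℕ, h (x, y) = h (x, y + n) := by
          intro n
          induction n with
          | zero => simp
          | succ n ih =>
            rw [ih, hup x (y + n) hxm]
            congr 2
            push_cast; ring
        rw [hall (k + 1)]
        apply hrow0
        right
        simp only
        push_cast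
        omega
  have hout' : ∀ g : St, ¬ InR m k g.1 → h' (fc g) = 0 := by
    intro g hg
    have := h1 g
    rw [hout _ hg, H.ff_out hg] at this
    linarith
  have hadj : ∀ g : St, ed g ∈ O → h g.1 = h (mv g) := by
    intro g ho
    have e1 := h1 g
    have e2 := h1 (sto g)
    rw [fc_sto, ← nxt_open ho, H.ff_nxt, nxt_open ho] at e2
    have e3 : (sto g).1 = mv g := rfl
    rw [e3] at e2
    linarith
  have hadj' : ∀ g : St, ed g ∉ O → h' (fc g) = h' (fc (stc g)) := by
    intro g ho
    have e1 := h1 g
    have e2 := h1 (stc g)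
    rw [← nxt_closed ho, H.ff_nxt, nxt_closed ho] at e2
    have e3 : (stc g).1 = g.1 := rfl
    rw [e3] at e2
    linarith
  refine ⟨h, h', h1, hout, hout', ?_, ?_, ?_⟩
  · intro u v huv
    induction huv with
    | refl => rfl
    | @tail v w _ hs ih =>
      rw [ih]
      obtain ⟨⟨x, y, b⟩, he, hw⟩ := hs
      cases b
      · have := hadj ((x, y), .ne) he
        simp only [mv] at this
        rcases hw with ⟨rfl, rfl⟩ | ⟨rfl, rfl⟩
        · exact this
        · exact this.symm
      · have := hadj ((x, y), .se) he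
        simp only [mv] at this
        rcases hw with ⟨rfl, rfl⟩ | ⟨rfl, rfl⟩
        · exact this
        · exact this.symm
  · intro u v huv
    induction huv with
    | refl => rfl
    | @tail v w _ hs ih =>
      rw [ih]
      obtain ⟨⟨x, y, b⟩, he, hw⟩ := hs
      cases b
      · have := hadj' ((x, y), .ne) he
        simp only [fc, stc, Cor.up] at this
        rcases hw with ⟨rfl, rfl⟩ | ⟨rfl, rfl⟩
        · exact this.symm
        · exact this
      · have := hadj' ((x, y), .se) he
        simp only [fc, stc, Cor.up] at this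
        rcases hw with ⟨rfl, rfl⟩ | ⟨rfl, rfl⟩
        · exact this
        · exact this.symm
  · have e1 := h1 (bb d)
    have e2 := hout' ((-1, (d : ℤ)), .ne) (fun hr => by have := hr.1; simp only at this; omega)
    have e0 : Hit (nxt O) (bb d) (bb d) := ⟨0, rfl⟩
    rw [ff_one e0] at e1
    simp only [fc, bb] at e1 e2
    rw [show (0 : ℤ) - 1 = -1 by ring, e2] at e1
    linarith

/-- At a face of the outside the loop passes exactly the vertices connected to the arc. -/
theorem Cf.hit_iff_reach (H : Cf m k c d O) {g g' : St} (hf : fc g = fc g')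
    (hg' : ¬ InR m k g'.1) : Hit (nxt O) (bb d) g ↔ Reach O (0, (d : ℤ)) g.1 := by
  constructor
  · rintro ⟨n, hn⟩
    have := reach_iter O g n
    rw [hn] at this
    exact this.symm
  · intro h
    obtain ⟨u, u', h1, _, h3, h4, _, h6⟩ := H.pot
    rw [← ff_iff, ← h1 g, hf, h3 g' hg', ← h4 _ _ h, h6]
    ring

/-- At a vertex of the arc the loop passes exactly the faces connected to the outside. -/
theorem Cf.hit_iff_dreach (H : Cf m k c d O) {g g' : St} (hr : Reach O (0, (d : ℤ)) g.1)
    (hg' : ¬ InR m k g'.1) (hfo : DReach Oᶜ (-1, (d : ℤ)) (fc g')) :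
    Hit (nxt O) (bb d) g ↔ DReach Oᶜ (fc g) (fc g') := by
  constructor
  · rintro ⟨n, hn⟩
    have := dreach_iter O g n
    rw [hn] at this
    refine this.trans ?_
    simp only [bb, fc]
    exact hfo
  · intro h
    obtain ⟨u, u', h1, _, h3, h4, h5, h6⟩ := H.pot
    rw [← ff_iff, ← h1 g, ← h4 _ _ hr, h6, h5 _ _ h, h3 g' hg']
    ring

/-- If the two ends of a closed edge are connected, then the loop passes the edge on both sides or
on no side. -/
theorem Cf.hit_pt (H : Cf m k c d O) {g : St} (ho : ed g ∉ O) (hr : Reach O g.1 (mv g)) :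
    Hit (nxt O) (bb d) g ↔ Hit (nxt O) (bb d) (pt g) := by
  obtain ⟨u, u', h1, _, _, h4, h5, _⟩ := H.pot
  have e1 := h1 g
  have e2 := h1 (pt g)
  have e3 : (pt g).1 = mv g := rfl
  have e4 : u' (fc (pt g)) = u' (fc g) := by
    have e5 : fc (pt g) = fc (stc g) := by
      obtain ⟨⟨x, y⟩, s⟩ := g
      cases s <;> simp [fc, pt, stc, mv, Cor.op, Cor.up]
    rw [e5]
    exact (h5 _ _ (dadj_ed (O := Oᶜ) ho).reach).symm
  rw [e3, e4, ← h4 _ _ hr] at e2
  rw [← ff_iff, ← ff_iff, ← e1, ← e2]

end Pool.Agent.Q294.SR
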