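import Pool.Agent.Q297.FKL.Cl

/-!
The critical random-cluster model on a lattice rectangle with a wired arc around the lower left
corner.
-/

set_option autoImplicit false

namespace Pool.Agent.Q294.SR

open H974 Pool.Agent.Q297.FKL

/-- The vertices `(x, y)` with `0 ≤ x ≤ m` and `0 ≤ y ≤ k`. -/
noncomputable def vts (m k : ℕ) : Finset Vtx := Finset.Icc 0 (m : ℤ) ×ˢ Finset.Icc 0 (k : ℤ)

/-- The wired arc: the edges of the lower side from `(0, 0)` to `(c, 0)` and those of the left side
from `(0, 0)` to `(0, d)`; they are open. -/
noncomputable def arc (c d : ℕ) : Finset Edg :=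
  (Finset.Ico (0 : ℤ) c).image (fun x => ((x, 0, true) : Edg)) ∪
    (Finset.Ico (0 : ℤ) d).image (fun y => ((0, y, false) : Edg))

/-- The other edges of the rectangle; they are random. -/
noncomputable def blk (m k c d : ℕ) : Finset Edg := RE 0 m 0 k \ arc c d

/-- The open edges, if `ω` is the set of the random edges which are open. -/
def opn (c d : ℕ) (ω : Finset Edg) : Set Edg := ↑ω ∪ ↑(arc c d)

/-- The number of clusters; a cluster is a set `{w | w is connected to v}`, `v` in the
rectangle. -/
noncomputable def cls (m k c d : ℕ) (ω : Finset Edg) : ℕ :=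
  Set.ncard {C : Set Vtx | ∃ v ∈ vts m k, C = {w | Reach (opn c d ω) v w}}

/-- The weight of a configuration at the self-dual point. -/
noncomputable def wt (q : ℝ) (m k c d : ℕ) (ω : Finset Edg) : ℝ :=
  √q ^ ω.card * q ^ cls m k c d ω

/-- The expectation. -/
noncomputable def mean (q : ℝ) (m k c d : ℕ) (X : Finset Edg → ℕ) : ℝ :=
  (∑ ω ∈ (blk m k c d).powerset, wt q m k c d ω * X ω) /
    ∑ ω ∈ (blk m k c d).powerset, wt q m k c d ω

open Classical in
/-- The number of vertices of the right side which are connected to the arc. -/
noncomputable def rgt (m k c d : ℕ) (ω : Finset Edg) : ℕ :=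
  ((Finset.Icc 0 (k : ℤ)).filter fun y => Reach (opn c d ω) (0, 0) (m, y)).card

open Classical in
/-- The number of vertices of the upper side which are connected to the arc. -/
noncomputable def upp (m k c d : ℕ) (ω : Finset Edg) : ℕ :=
  ((Finset.Icc 0 (m : ℤ)).filter fun x => Reach (opn c d ω) (0, 0) (x, k)).card

open Classical in
/-- The number of vertices of the lower side, outside the arc, which are connected to the arc. -/
noncomputable def low (m c d : ℕ) (ω : Finset Edg) : ℕ :=
  ((Finset.Ioc (c : ℤ) m).filter fun x => Reach (opn c d ω) (0, 0) (x, 0)).card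

open Classical in
/-- The number of vertices of the left side, outside the arc, which are connected to the arc. -/
noncomputable def lft (k c d : ℕ) (ω : Finset Edg) : ℕ :=
  ((Finset.Ioc (d : ℤ) k).filter fun y => Reach (opn c d ω) (0, 0) (0, y)).card

open Classical in
/-- The number of the edges `[(x, 0), (x + 1, 0)]` of the arc such that the face above it is
connected to the outside of the rectangle by a path of faces which crosses no open edge. -/
noncomputable def alow (m k c d : ℕ) (ω : Finset Edg) : ℕ :=
  ((Finset.Ico 0 (c : ℤ)).filter fun x => DReach (opn c d ω)ᶜ (x, 0) (m, k)).card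

open Classical in
/-- The number of the edges `[(0, y), (0, y + 1)]` of the arc such that the face to the right of it
is connected to the outside of the rectangle by a path of faces which crosses no open edge. -/
noncomputable def alft (m k c d : ℕ) (ω : Finset Edg) : ℕ :=
  ((Finset.Ico 0 (d : ℤ)).filter fun y => DReach (opn c d ω)ᶜ (0, y) (m, k)).card

open Classical in
/-- The number of vertices `(x, 0)` of the lower side with `x > a` and `x > c` which are connected to
the arc. -/
noncomputable def lowr (m c d a : ℕ) (ω : Finset Edg) : ℕ :=
  ((Finset.Ioc (max (a : ℤ) c) m).filter fun x => Reach (opn c d ω) (0, 0) (x, 0)).card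

open Classical in
/-- The number of crossings of the vertical line just to the right of the vertices `(a, y)` by the
interface, that is, the number of pairs of a vertex `(a, y)` connected to the arc and a face to the
right of it, above or below it, which is connected to the outside by a path of faces crossing no open
edge; the face below the arc (if `y = 0` and `a < c`) is not counted. -/
noncomputable def crs (m k c d a : ℕ) (ω : Finset Edg) : ℕ :=
  ((Finset.Icc 0 (k : ℤ)).filter fun y =>
    Reach (opn c d ω) (0, 0) (a, y) ∧ DReach (opn c d ω)ᶜ (a, y) (m, k)).card +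
  ((Finset.Icc 0 (k : ℤ)).filter fun y => (0 < y ∨ c ≤ a) ∧
    Reach (opn c d ω) (0, 0) (a, y) ∧ DReach (opn c d ω)ᶜ (a, y - 1) (m, k)).card

open Classical in
/-- Indicator of the event that the arc is connected to the right or to the upper side. -/
noncomputable def far (m k c d : ℕ) (ω : Finset Edg) : ℕ :=
  if ∃ v ∈ vts m k, (v.1 = m ∨ v.2 = k) ∧ Reach (opn c d ω) (0, 0) v then 1 else 0

end Pool.Agent.Q294.SR
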