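import Pool.Agent.Q294.SR.Pair
import Pool.Agent.Q294.SR.Defs

/-!
The states of the walk at the boundary: values of the winding and numbers of visits.
-/

set_option autoImplicit false

namespace Pool.Agent.Q294.SR

open H974 Pool.Agent.Q297.FKL

variable {m k c d : ℕ} {O : Set Edg}

theorem mem_arc {c d : ℕ} {x y : ℤ} {b : Bool} : ((x, y, b) : Edg) ∈ arc c d ↔
    (b = true ∧ y = 0 ∧ 0 ≤ x ∧ x < c) ∨ (b = false ∧ x = 0 ∧ 0 ≤ y ∧ y < d) := by
  unfold arc
  simp only [Finset.mem_union, Finset.mem_image, Finset.mem_Ico, Prod.mk.injEq]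
  constructor
  · rintro (⟨a, h, rfl, rfl, rfl⟩ | ⟨a, h, rfl, rfl, rfl⟩)
    · exact Or.inl ⟨rfl, rfl, h⟩
    · exact Or.inr ⟨rfl, rfl, h⟩
  · rintro (⟨rfl, rfl, h⟩ | ⟨rfl, rfl, h⟩)
    · exact Or.inl ⟨x, h, rfl, rfl, rfl⟩
    · exact Or.inr ⟨y, h, rfl, rfl, rfl⟩

theorem cf_opn (hc : c ≤ m) (hd : d ≤ k) {ω : Finset Edg} (hω : ω ⊆ blk m k c d) :
    Cf m k c d (opn c d ω) := by
  refine ⟨hc, hd, ?_, ?_, ?_⟩
  · intro x h1 h2
    exact Or.inr (by
      rw [Finset.mem_coe, mem_arc]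
      exact Or.inl ⟨rfl, rfl, h1, h2⟩)
  · intro y h1 h2
    exact Or.inr (by
      rw [Finset.mem_coe, mem_arc]
      exact Or.inr ⟨rfl, rfl, h1, h2⟩)
  · rintro ⟨x, y, b⟩ (h | h)
    · exact (Finset.mem_sdiff.mp (hω h)).1
    · rw [Finset.mem_coe, mem_arc] at h
      rcases h with ⟨rfl, rfl, h⟩ | ⟨rfl, rfl, h⟩
      · rw [mem_RE_true]; omega
      · rw [mem_RE_false]; omega

theorem chain_of {α : Type*} {r : α → α → Prop} (f : ℕ → α) (n : ℕ)
    (h : ∀ i, i < n → r (f i) (f (i + 1))) : Relation.ReflTransGen r (f 0) (f n) := by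
  induction n with
  | zero => exact Relation.ReflTransGen.refl
  | succ n ih => exact (ih (fun i hi => h i (by omega))).tail (h n (by omega))

theorem Cf.arc_lo (H : Cf m k c d O) {x : ℤ} (h0 : 0 ≤ x) (hx : x ≤ c) :
    Reach O (0, 0) (x, 0) := by
  have := chain_of (r := Adj O) (fun i : ℕ => (((i : ℤ), 0) : Vtx)) x.toNat (fun i hi =>
    ⟨_, H.lo i (by omega) (by omega), Or.inl ⟨rfl, by simp⟩⟩)
  simp only [Nat.cast_zero] at this
  rw [Int.toNat_of_nonneg h0] at this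
  exact this

theorem Cf.arc_lf (H : Cf m k c d O) {y : ℤ} (h0 : 0 ≤ y) (hy : y ≤ d) :
    Reach O (0, 0) (0, y) := by
  have := chain_of (r := Adj O) (fun i : ℕ => ((0, (i : ℤ)) : Vtx)) y.toNat (fun i hi =>
    ⟨_, H.lf i (by omega) (by omega), Or.inl ⟨rfl, by simp⟩⟩)
  simp only [Nat.cast_zero] at this
  rw [Int.toNat_of_nonneg h0] at this
  exact this

theorem Cf.reach_iff (H : Cf m k c d O) (v : Vtx) :
    Reach O (0, (d : ℤ)) v ↔ Reach O (0, 0) v := by
  have h := H.arc_lf (y := d) (by omega) le_rfl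
  exact ⟨fun h' => h.trans h', fun h' => h.symm.trans h'⟩

theorem Cf.outer (H : Cf m k c d O) : DReach Oᶜ (-1, (d : ℤ)) ((m : ℤ), (k : ℤ)) := by
  have h1 := chain_of (r := DAdj Oᶜ) (fun i : ℕ => ((-1, (d : ℤ) + i) : Vtx)) (k - d) (fun i _ =>
    ⟨(-1, (d : ℤ) + i + 1, true), fun h => by have := H.tr h; omega, Or.inl ⟨by simp, by simp [add_assoc]⟩⟩)
  have h2 := chain_of (r := DAdj Oᶜ) (fun i : ℕ => (((i : ℤ) - 1, (k : ℤ)) : Vtx)) (m + 1)
    (fun i _ => ⟨((i : ℤ), (k : ℤ), false), fun h => by have := H.fa h; omega,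
      Or.inl ⟨by simp, by simp⟩⟩)
  have hd := H.hd
  simp only [Nat.cast_zero, add_zero] at h1
  rw [show (d : ℤ) + ((k - d : ℕ) : ℤ) = k by omega] at h1
  simp only [Nat.cast_zero, zero_sub, Nat.cast_add, Nat.cast_one, add_sub_cancel_right] at h2
  exact Relation.ReflTransGen.trans h1 h2

/-! ### visits -/

theorem Cf.on_right (H : Cf m k c d O) (y : ℤ) :
    OnP (nxt O) (aa c) (bb d) (((m : ℤ), y), .se) ↔ Reach O (0, 0) ((m : ℤ), y) := by
  have hc := H.hc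
  rw [H.onP_iff (fun h => by have := h.2.2; simp only at this; omega),
    H.hit_iff_reach (g' := (((m : ℤ) + 1, y), .sw)) (by simp [fc])
      (fun h => by have := h.2.1; simp only at this; omega), H.reach_iff]

theorem Cf.on_top (H : Cf m k c d O) (x : ℤ) :
    OnP (nxt O) (aa c) (bb d) ((x, (k : ℤ)), .ne) ↔ Reach O (0, 0) (x, (k : ℤ)) := by
  have hno : ¬ Out c d ((x, (k : ℤ)), .ne) := fun h => h
  rw [H.onP_iff hno,
    H.hit_iff_reach (g' := ((x, (k : ℤ) + 1), .se)) (by simp [fc])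
      (fun h => by have := h.2.2.2; simp only at this; omega), H.reach_iff]

theorem Cf.on_left (H : Cf m k c d O) {y : ℤ} (hy : d < y) :
    OnP (nxt O) (aa c) (bb d) ((0, y), .nw) ↔ Reach O (0, 0) (0, y) := by
  rw [H.onP_iff (fun h => by have := h.2.2; simp only at this; omega),
    H.hit_iff_reach (g' := ((-1, y), .ne)) (by simp [fc])
      (fun h => by have := h.1; simp only at this; omega), H.reach_iff]

theorem Cf.on_low (H : Cf m k c d O) {x : ℤ} (hx : c < x) :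
    OnP (nxt O) (aa c) (bb d) ((x, 0), .sw) ↔ Reach O (0, 0) (x, 0) := by
  rw [H.onP_iff (fun h => by rcases h with h | h <;> simp only at h <;> omega),
    H.hit_iff_reach (g' := ((x, -1), .nw)) (by simp [fc])
      (fun h => by have := h.2.2.1; simp only at this; omega), H.reach_iff]

theorem Cf.on_alow (H : Cf m k c d O) {x : ℤ} (h0 : 0 ≤ x) (hx : x < c) :
    OnP (nxt O) (aa c) (bb d) ((x + 1, 0), .nw) ↔ DReach Oᶜ (x, 0) ((m : ℤ), (k : ℤ)) := by
  rw [H.onP_iff (fun h => by have := h.1; simp only at this; omega),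
    H.hit_iff_dreach (g' := (((m : ℤ) + 1, (k : ℤ)), .nw))
      ((H.reach_iff _).mpr (H.arc_lo (by omega) (by omega)))
      (fun h => by have := h.2.1; simp only at this; omega) (by simpa [fc] using H.outer)]
  simp [fc]

theorem Cf.on_alft (H : Cf m k c d O) {y : ℤ} (h0 : 0 ≤ y) (hy : y < d) :
    OnP (nxt O) (aa c) (bb d) ((0, y), .ne) ↔ DReach Oᶜ (0, y) ((m : ℤ), (k : ℤ)) := by
  have hno : ¬ Out c d ((0, y), .ne) := fun h => h
  rw [H.onP_iff hno,
    H.hit_iff_dreach (g' := (((m : ℤ) + 1, (k : ℤ)), .nw))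
      ((H.reach_iff _).mpr (H.arc_lf h0 hy.le))
      (fun h => by have := h.2.1; simp only at this; omega) (by simpa [fc] using H.outer)]
  simp [fc]

/-! ### values -/

theorem Cf.v_right (H : Cf m k c d O) (hW : S_WIND) {y : ℤ}
    (h : OnP (nxt O) (aa c) (bb d) (((m : ℤ), y), .se)) :
    N O d (((m : ℤ), y), .se) = 2 ∧ N O d (nxt O (((m : ℤ), y), .se)) = 1 := by
  have ho : ed (((m : ℤ), y), .se) ∉ O := fun h' => by have := H.tr h'; omega
  have hh := onP_hit H.hit_aa h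
  have h1 := (H.hit_nxt _).mpr hh
  have h2 := N_step hh (onP_ne h)
  rw [eps_closed ho] at h2
  rw [h2]
  rw [nxt_closed ho] at h1 ⊢
  have h3 : N O d (stc (((m : ℤ), y), .se)) = 1 := H.N_ne hW h1
  rw [h3]
  norm_num

theorem Cf.v_top (H : Cf m k c d O) (hW : S_WIND) {x : ℤ}
    (h : OnP (nxt O) (aa c) (bb d) ((x, (k : ℤ)), .ne)) :
    N O d ((x, (k : ℤ)), .ne) = 1 ∧ N O d (nxt O ((x, (k : ℤ)), .ne)) = 0 := by
  have ho : ed ((x, (k : ℤ)), .ne) ∉ O := fun h' => by have := H.fa h'; omega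
  have hh := onP_hit H.hit_aa h
  have h1 := (H.hit_nxt _).mpr hh
  have h2 := N_step hh (onP_ne h)
  rw [eps_closed ho] at h2
  rw [h2]
  rw [nxt_closed ho] at h1 ⊢
  have h3 : N O d (stc ((x, (k : ℤ)), .ne)) = 0 := H.N_nw hW h1
  rw [h3]
  norm_num

theorem Cf.v_left (H : Cf m k c d O) (hW : S_WIND) {y : ℤ} (hy : d < y)
    (h : OnP (nxt O) (aa c) (bb d) ((0, y), .nw)) :
    N O d ((0, y), .nw) = 0 ∧ N O d (nxt O ((0, y), .nw)) = -1 := by
  have ho : ed ((0, y), .nw) ∉ O := fun h' => by have := H.tr h'; omega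
  have hh := onP_hit H.hit_aa h
  have h1 := (H.hit_nxt _).mpr hh
  have h2 := N_step hh (onP_ne h)
  rw [eps_closed ho] at h2
  rw [h2]
  rw [nxt_closed ho] at h1 ⊢
  have h3 : N O d (stc ((0, y), .nw)) = -1 := H.N_sw hW hy h1
  rw [h3]
  norm_num

theorem Cf.v_low (H : Cf m k c d O) (hW : S_WIND) {x : ℤ}
    (h : OnP (nxt O) (aa c) (bb d) ((x, 0), .sw)) :
    N O d ((x, 0), .sw) = 3 ∧ N O d (nxt O ((x, 0), .sw)) = 2 := by
  have ho : ed ((x, 0), .sw) ∉ O := fun h' => by have := H.fa h'; omega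
  have hh := onP_hit H.hit_aa h
  have h1 := (H.hit_nxt _).mpr hh
  have h2 := N_step hh (onP_ne h)
  rw [eps_closed ho] at h2
  rw [h2]
  rw [nxt_closed ho] at h1 ⊢
  have h3 : N O d (stc ((x, 0), .sw)) = 2 := H.N_se hW h1
  rw [h3]
  norm_num

theorem Cf.v_alow (H : Cf m k c d O) (hW : S_WIND) {x : ℤ} (h0 : 0 ≤ x) (hx : x < c)
    (h : OnP (nxt O) (aa c) (bb d) ((x + 1, 0), .nw)) :
    N O d ((x + 1, 0), .nw) = 0 ∧ N O d (nxt O ((x + 1, 0), .nw)) = 1 := by
  have ho : ed ((x + 1, 0), .nw) ∈ O := by simpa [ed] using H.lo x h0 hx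
  have hh := onP_hit H.hit_aa h
  have h2 := N_step hh (onP_ne h)
  have e1 : nxt O ((x + 1, 0), .nw) = ((x, 0), .ne) := by
    rw [nxt_open ho]
    simp [sto, mv, Cor.dn]
  have h1 : OnP (nxt O) (aa c) (bb d) ((x, 0), .ne) := by
    rcases onP_step h with h3 | h3
    · rwa [e1] at h3
    · rw [e1] at h3
      simp [bb] at h3
  rw [eps_open ho, e1, H.N_lo hW h0 hx h1] at h2
  rw [h2, e1, H.N_lo hW h0 hx h1]
  norm_num

theorem Cf.v_alft (H : Cf m k c d O) (hW : S_WIND) {y : ℤ} (h0 : 0 ≤ y) (hy : y < d)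
    (h : OnP (nxt O) (aa c) (bb d) ((0, y), .ne)) :
    N O d ((0, y), .ne) = 1 ∧ N O d (nxt O ((0, y), .ne)) = 2 := by
  have ho : ed ((0, y), .ne) ∈ O := by simpa [ed] using H.lf y h0 hy
  have hh := onP_hit H.hit_aa h
  have h2 := N_step hh (onP_ne h)
  have e1 : nxt O ((0, y), .ne) = ((0, y + 1), .se) := by
    rw [nxt_open ho]
    simp [sto, mv, Cor.dn]
  have h1 : OnP (nxt O) (aa c) (bb d) ((0, y + 1), .se) := by
    rcases onP_step h with h3 | h3
    · rwa [e1] at h3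
    · rw [e1] at h3
      simp [bb] at h3
  rw [eps_open ho, e1, H.N_lf hW (by omega) (by omega) h1] at h2
  rw [h2, e1, H.N_lf hW (by omega) (by omega) h1]
  norm_num

end Pool.Agent.Q294.SR
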