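import Pool.Agent.Q294.SR.St
import Mathlib

/-!
A flow on the corners without sources is the difference of a function of the vertices and a function
of the faces.
-/

set_option autoImplicit false

namespace Pool.Agent.Q294.SR

open H974

/-- the row sum -/
noncomputable def hrow (f : St → ℤ) (v : Vtx) : ℤ :=
  ∑ i ∈ Finset.Ico 0 (v.1 + 1), (f ((i, v.2), .sw) - f ((i - 1, v.2), .se))

theorem hrow_neg (f : St → ℤ) {v : Vtx} (hv : v.1 < 0) : hrow f v = 0 := by
  unfold hrow
  rw [Finset.Ico_eq_empty (by omega), Finset.sum_empty]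

theorem hrow_rec {f : St → ℤ} (hneg : ∀ g : St, g.1.1 < 0 → f g = 0) (x y : ℤ) :
    hrow f (x, y) = hrow f (x - 1, y) + f ((x, y), .sw) - f ((x - 1, y), .se) := by
  by_cases h : 0 ≤ x
  · unfold hrow
    simp only
    rw [show x - 1 + 1 = x by ring, sum_Ico_int_succ h]
    ring
  · rw [hrow_neg f (by simpa using h), hrow_neg f (by simp only; omega),
      hneg _ (by simpa using h), hneg _ (by simp only; omega)]
    ring

theorem hrow_up {f : St → ℤ} (hneg : ∀ g : St, g.1.1 < 0 → f g = 0)
    (hcl : ∀ g, f g + f (pt g) = f (stc g) + f (stc (pt g))) (x y : ℤ) :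
    hrow f (x, y + 1) - f ((x, y + 1), .sw) = hrow f (x, y) - f ((x, y), .nw) := by
  by_cases h : x < 0
  · rw [hrow_neg f h, hrow_neg f h, hneg _ h, hneg _ h]
  · obtain ⟨n, hn⟩ : ∃ n : ℕ, x = (n : ℤ) - 1 := ⟨(x + 1).toNat, by omega⟩
    clear h
    induction n generalizing x with
    | zero =>
      have h : x < 0 := by omega
      rw [hrow_neg f h, hrow_neg f h, hneg _ h, hneg _ h]
    | succ n ih =>
      have h0 := ih (x - 1) (by push_cast at hn ⊢; omega)
      have h1 := hrow_rec hneg x y
      have h2 := hrow_rec hneg x (y + 1)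
      have h3 := hcl ((x - 1, y), .ne)
      have h4 := hcl ((x - 1, y), .se)
      simp only [pt, mv, Cor.op, stc, Cor.up] at h3 h4
      rw [show x - 1 + 1 = x by ring] at h4
      linarith

/-- existence of the potential -/
theorem exists_pot {f : St → ℤ} (hneg : ∀ g : St, g.1.1 < 0 → f g = 0)
    (hcl : ∀ g, f g + f (pt g) = f (stc g) + f (stc (pt g))) :
    ∃ h h' : Vtx → ℤ, (∀ g : St, h g.1 - h' (fc g) = f g) ∧ h = hrow f := by
  refine ⟨hrow f, fun p => hrow f (p.1 + 1, p.2 + 1) - f ((p.1 + 1, p.2 + 1), .sw), ?_, rfl⟩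
  rintro ⟨⟨x, y⟩, s⟩
  cases s
  · -- se
    simp only [fc]
    have h1 := hrow_rec hneg (x + 1) y
    rw [show x + 1 - 1 = x by ring] at h1
    rw [show y - 1 + 1 = y by ring]
    linarith
  · -- ne
    simp only [fc]
    have h1 := hrow_rec hneg (x + 1) y
    have h2 := hrow_up hneg hcl (x + 1) y
    have h3 := hcl ((x, y), .se)
    simp only [pt, mv, Cor.op, stc, Cor.up] at h3
    rw [show x + 1 - 1 = x by ring] at h1
    linarith
  · -- nw
    simp only [fc]
    have h2 := hrow_up hneg hcl x y
    rw [show x - 1 + 1 = x by ring]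
    linarith
  · -- sw
    simp only [fc]
    rw [show x - 1 + 1 = x by ring, show y - 1 + 1 = y by ring]
    ring

end Pool.Agent.Q294.SR
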