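import Pool.Agent.Q294.SR.Walk
import Pool.Agent.Q294.SR.Pot

/-!
The loop through the wired arc.
-/

set_option autoImplicit false

namespace Pool.Agent.Q294.SR

open H974

/-- The open edges contain the arc and are edges of the rectangle. -/
structure Cf (m k c d : ℕ) (O : Set Edg) : Prop where
  hc : c ≤ m
  hd : d ≤ k
  lo : ∀ x : ℤ, 0 ≤ x → x < c → ((x, 0, true) : Edg) ∈ O
  lf : ∀ y : ℤ, 0 ≤ y → y < d → ((0, y, false) : Edg) ∈ O
  sub : ∀ e ∈ O, e ∈ RE 0 m 0 k

/-- vertices of the rectangle -/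
def InR (m k : ℕ) (v : Vtx) : Prop := 0 ≤ v.1 ∧ v.1 ≤ m ∧ 0 ≤ v.2 ∧ v.2 ≤ k

/-- The first state. -/
def aa (c : ℕ) : St := (((c : ℤ), 0), .se)

/-- The last state. -/
def bb (d : ℕ) : St := ((0, (d : ℤ)), .nw)

/-- The states of the loop outside of the arc. -/
def Out (c d : ℕ) : St → Prop
  | (v, .se) => v.2 = 0 ∧ 0 ≤ v.1 ∧ v.1 < c
  | (_, .ne) => False
  | (v, .nw) => v.1 = 0 ∧ 0 ≤ v.2 ∧ v.2 ≤ d
  | (v, .sw) => (v.1 = 0 ∧ 0 ≤ v.2 ∧ v.2 ≤ d) ∨ (v.2 = 0 ∧ 0 ≤ v.1 ∧ v.1 ≤ c)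

variable {m k c d : ℕ} {O : Set Edg}

theorem Cf.tr (H : Cf m k c d O) {x y : ℤ} (h : ((x, y, true) : Edg) ∈ O) :
    0 ≤ x ∧ x < m ∧ 0 ≤ y ∧ y ≤ k := mem_RE_true.mp (H.sub _ h)

theorem Cf.fa (H : Cf m k c d O) {x y : ℤ} (h : ((x, y, false) : Edg) ∈ O) :
    0 ≤ x ∧ x ≤ m ∧ 0 ≤ y ∧ y < k := mem_RE_false.mp (H.sub _ h)

theorem Cf.inR (H : Cf m k c d O) {g : St} (h : ed g ∈ O) : InR m k g.1 ∧ InR m k (mv g) := by
  obtain ⟨⟨x, y⟩, s⟩ := g
  cases s
  · have := H.tr h
    simp only [InR, mv]; omega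
  · have := H.fa h
    simp only [InR, mv]; omega
  · have := H.tr h
    simp only [InR, mv]; omega
  · have := H.fa h
    simp only [InR, mv]; omega

theorem Cf.nxt_inR (H : Cf m k c d O) (g : St) : InR m k (nxt O g).1 ↔ InR m k g.1 := by
  by_cases h : ed g ∈ O
  · rw [nxt_open h]
    have := H.inR h
    exact ⟨fun _ => this.1, fun _ => this.2⟩
  · rw [nxt_closed h]; rfl

theorem Cf.iter_inR (H : Cf m k c d O) (g : St) (n : ℕ) :
    InR m k ((nxt O)^[n] g).1 ↔ InR m k g.1 := by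
  induction n with
  | zero => rfl
  | succ n ih => rw [Function.iterate_succ_apply', H.nxt_inR, ih]

theorem Cf.bb_inR (H : Cf m k c d O) : InR m k (bb d).1 := by
  have := H.hd
  simp only [InR, bb]; omega

theorem Cf.hit_inR (H : Cf m k c d O) {g : St} (h : Hit (nxt O) (bb d) g) : InR m k g.1 := by
  obtain ⟨n, hn⟩ := h
  rw [← H.iter_inR g n, hn]
  exact H.bb_inR

/-! ### The outer part of the loop -/

theorem out_bb : Out c d (bb d) := by
  refine ⟨rfl, ?_, ?_⟩ <;> simp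

theorem not_out_aa : ¬ Out c d (aa c) := by
  rintro ⟨_, _, h⟩
  simp at h

theorem aa_ne_bb : aa c ≠ bb d := by simp [aa, bb]

theorem Cf.out_nxt (H : Cf m k c d O) {g : St} (hg : Out c d g) :
    Out c d (nxt O g) ∨ nxt O g = aa c := by
  obtain ⟨⟨x, y⟩, s⟩ := g
  cases s
  · obtain ⟨h1, h2, h3⟩ := hg
    simp only at h1 h2 h3
    subst h1
    left
    rw [nxt_open (show ed ((x, 0), .se) ∈ O from H.lo x h2 h3)]
    right
    refine ⟨rfl, ?_, ?_⟩ <;> simp only [mv] <;> omega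
  · exact hg.elim
  · obtain ⟨h1, h2, h3⟩ := hg
    simp only at h1 h2 h3
    subst h1
    left
    rw [nxt_closed (show ed ((0, y), .nw) ∉ O from fun h => by have := H.tr h; omega)]
    left
    exact ⟨rfl, h2, h3⟩
  · by_cases hy : x = 0 ∧ 0 < y
    · obtain ⟨rfl, hy⟩ := hy
      have h3 : y ≤ d := by
        rcases hg with h | h
        · exact h.2.2
        · have := h.1; simp only at this; omega
      left
      rw [nxt_open (show ed ((0, y), .sw) ∈ O from H.lf (y - 1) (by omega) (by omega))]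
      refine ⟨rfl, ?_, ?_⟩ <;> simp only [mv] <;> omega
    · have h2 : y = 0 ∧ 0 ≤ x ∧ x ≤ c := by
        rcases hg with h | h <;> simp only at h <;> omega
      obtain ⟨rfl, h2, h3⟩ := h2
      rw [nxt_closed (show ed ((x, 0), .sw) ∉ O from fun h => by have := H.fa h; omega)]
      by_cases hx : x < c
      · left
        exact ⟨rfl, h2, hx⟩
      · right
        have : x = c := by omega
        subst this
        rfl

theorem Cf.out_prev (H : Cf m k c d O) {g : St} (hg : Out c d g) (hb : g ≠ bb d) :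
    ∃ g', Out c d g' ∧ nxt O g' = g := by
  obtain ⟨⟨x, y⟩, s⟩ := g
  cases s
  · obtain ⟨h1, h2, h3⟩ := hg
    simp only at h1 h2 h3
    subst h1
    refine ⟨((x, 0), .sw), Or.inr ⟨rfl, h2, h3.le⟩, ?_⟩
    rw [nxt_closed (show ed ((x, 0), .sw) ∉ O from fun h => by have := H.fa h; omega)]
    rfl
  · exact hg.elim
  · obtain ⟨h1, h2, h3⟩ := hg
    simp only at h1 h2 h3
    subst h1
    have hyd : y ≠ d := fun h => hb (by subst h; rfl)
    refine ⟨((0, y + 1), .sw), Or.inl ⟨rfl, ?_, ?_⟩, ?_⟩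
    · simp only; omega
    · simp only; omega
    · rw [nxt_open (show ed ((0, y + 1), .sw) ∈ O from by
        have := H.lf y h2 (by omega)
        simpa [ed] using this)]
      simp [sto, mv, Cor.dn]
  · by_cases hx : x = 0
    · subst hx
      have hy : 0 ≤ y ∧ y ≤ d := by
        rcases hg with h | h <;> simp only at h <;> omega
      refine ⟨((0, y), .nw), ⟨rfl, hy.1, hy.2⟩, ?_⟩
      rw [nxt_closed (show ed ((0, y), .nw) ∉ O from fun h => by have := H.tr h; omega)]
      rfl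
    · have h2 : y = 0 ∧ 0 ≤ x ∧ x ≤ c := by
        rcases hg with h | h <;> simp only at h <;> omega
      obtain ⟨rfl, h2, h3⟩ := h2
      refine ⟨((x - 1, 0), .se), ⟨rfl, ?_, ?_⟩, ?_⟩
      · simp only; omega
      · simp only; omega
      · rw [nxt_open (show ed ((x - 1, 0), .se) ∈ O from H.lo (x - 1) (by omega) (by omega))]
        simp [sto, mv, Cor.dn]

theorem Cf.out_ne (H : Cf m k c d O) {g : St} (hg : Out c d g) : nxt O g ≠ bb d := by
  intro he
  obtain ⟨⟨x, y⟩, s⟩ := g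
  cases s
  · by_cases h : ed ((x, y), .se) ∈ O
    · rw [nxt_open h] at he
      simp [sto, bb, Cor.dn] at he
    · rw [nxt_closed h] at he
      simp [stc, bb, Cor.up] at he
  · exact hg.elim
  · by_cases h : ed ((x, y), .nw) ∈ O
    · rw [nxt_open h] at he
      simp [sto, bb, Cor.dn] at he
    · rw [nxt_closed h] at he
      simp [stc, bb, Cor.up] at he
  · by_cases h : ed ((x, y), .sw) ∈ O
    · rw [nxt_open h] at he
      simp only [sto, bb, Cor.dn, mv, Prod.mk.injEq] at he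
      have := H.fa h
      rcases hg with h | h <;> simp only at h <;> omega
    · rw [nxt_closed h] at he
      simp [stc, bb, Cor.up] at he

/-! ### The loop is finite -/

theorem Cf.per (H : Cf m k c d O) : ∃ p, 0 < p ∧ (nxt O)^[p] (bb d) = bb d := by
  classical
  have hfin : (((Finset.Icc 0 (m : ℤ) ×ˢ Finset.Icc 0 (k : ℤ)) ×ˢ
      (Finset.univ : Finset Cor) : Finset St) : Set St).Finite := Finset.finite_toSet _
  have hmem : ∀ n : ℕ, (nxt O)^[n] (bb d) ∈ (((Finset.Icc 0 (m : ℤ) ×ˢ Finset.Icc 0 (k : ℤ)) ×ˢ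
      (Finset.univ : Finset Cor) : Finset St) : Set St) := by
    intro n
    have h := (H.iter_inR (bb d) n).mpr H.bb_inR
    simp only [Finset.coe_product, Set.mem_prod, Finset.mem_coe, Finset.mem_Icc, Finset.mem_univ,
      and_true]
    exact ⟨⟨h.1, h.2.1⟩, h.2.2.1, h.2.2.2⟩
  obtain ⟨i, j, hij, he⟩ := hfin.exists_lt_map_eq_of_forall_mem hmem
  refine ⟨j - i, by omega, ?_⟩
  have h1 : (nxt O)^[i] ((nxt O)^[j - i] (bb d)) = (nxt O)^[i] (bb d) := by
    rw [← Function.iterate_add_apply, he]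
    congr 1
    omega
  exact ((nxt_inj O).iterate i) h1

theorem Cf.per_mul (H : Cf m k c d O) (n : ℕ) : ∃ p, n ≤ p ∧ (nxt O)^[p] (bb d) = bb d := by
  obtain ⟨p, hp, h⟩ := H.per
  refine ⟨p * n, Nat.le_mul_of_pos_left n hp, ?_⟩
  have : ((nxt O)^[p])^[n] (bb d) = bb d := by
    induction n with
    | zero => rfl
    | succ n ih => rw [Function.iterate_succ_apply', ih, h]
  rw [Function.iterate_mul]
  exact this

/-- from `b` one gets to every state which leads to `b` -/
theorem Cf.back (H : Cf m k c d O) {g : St} (h : Hit (nxt O) (bb d) g) :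
    ∃ n, (nxt O)^[n] (bb d) = g := by
  obtain ⟨n, hn⟩ := h
  obtain ⟨p, hp, h⟩ := H.per_mul n
  refine ⟨p - n, ?_⟩
  have h1 : (nxt O)^[n] ((nxt O)^[p - n] (bb d)) = (nxt O)^[n] g := by
    rw [← Function.iterate_add_apply, hn, show n + (p - n) = p by omega, h]
  exact ((nxt_inj O).iterate n) h1

theorem Cf.fwd (H : Cf m k c d O) {g : St} {n : ℕ} (h : (nxt O)^[n] (bb d) = g) :
    Hit (nxt O) (bb d) g := by
  obtain ⟨p, hp, h1⟩ := H.per_mul n
  refine ⟨p - n, ?_⟩
  rw [← h, ← Function.iterate_add_apply, show p - n + n = p by omega, h1]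

theorem Cf.hit_nxt (H : Cf m k c d O) (g : St) :
    Hit (nxt O) (bb d) (nxt O g) ↔ Hit (nxt O) (bb d) g := by
  constructor
  · rintro ⟨n, hn⟩
    exact ⟨n + 1, hn⟩
  · intro h
    obtain ⟨n, hn⟩ := H.back h
    exact H.fwd (n := n + 1) (by rw [Function.iterate_succ_apply', hn])

/-- the walk from `a` gets to `b` -/
theorem Cf.hit_aa (H : Cf m k c d O) : Hit (nxt O) (bb d) (aa c) := by
  by_contra hno
  have hall : ∀ n, Out c d ((nxt O)^[n] (bb d)) := by
    intro n
    induction n with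
    | zero => exact out_bb
    | succ n ih =>
      rw [Function.iterate_succ_apply']
      rcases H.out_nxt ih with h | h
      · exact h
      · exact absurd (H.fwd (n := n + 1) (by rw [Function.iterate_succ_apply', h])) hno
  obtain ⟨p, hp, h⟩ := H.per
  obtain ⟨p', rfl⟩ : ∃ p', p = p' + 1 := ⟨p - 1, by omega⟩
  rw [Function.iterate_succ_apply'] at h
  exact H.out_ne (hall p') h

/-- The states of the walk are not in the outer part. -/
theorem Cf.onP_not_out (H : Cf m k c d O) {g : St} (h : OnP (nxt O) (aa c) (bb d) g) :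
    ¬ Out c d g := by
  obtain ⟨j, hj, rfl⟩ := h
  induction j with
  | zero => exact not_out_aa
  | succ j ih =>
    intro hout
    obtain ⟨g', h1, h2⟩ := H.out_prev hout (tm_min hj)
    rw [Function.iterate_succ_apply'] at h2
    have h3 := nxt_inj O h2
    rw [h3] at h1
    exact ih (by omega) h1

/-- The loop consists of the walk and the outer part. -/
theorem Cf.hit_cases (H : Cf m k c d O) {g : St} (h : Hit (nxt O) (bb d) g) :
    OnP (nxt O) (aa c) (bb d) g ∨ Out c d g := by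
  obtain ⟨n, hn⟩ := H.back h
  clear h
  induction n generalizing g with
  | zero => right; rw [← hn]; exact out_bb
  | succ n ih =>
    rw [Function.iterate_succ_apply'] at hn
    rcases ih rfl with h1 | h1
    · rcases onP_step h1 with h2 | h2
      · left; rw [← hn]; exact h2
      · right; rw [← hn, h2]; exact out_bb
    · rcases H.out_nxt h1 with h2 | h2
      · right; rw [← hn]; exact h2
      · left; rw [← hn, h2]; exact onP_start H.hit_aa aa_ne_bb

theorem Cf.onP_iff (H : Cf m k c d O) {g : St} (hg : ¬ Out c d g) :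
    OnP (nxt O) (aa c) (bb d) g ↔ Hit (nxt O) (bb d) g := by
  constructor
  · exact onP_hit H.hit_aa
  · intro h
    exact (H.hit_cases h).resolve_right hg

/-! ### Connections along the walk -/

theorem adj_ed {O : Set Edg} {g : St} (h : ed g ∈ O) : Adj O g.1 (mv g) := by
  obtain ⟨⟨x, y⟩, s⟩ := g
  cases s
  · exact ⟨_, h, Or.inl ⟨rfl, rfl⟩⟩
  · exact ⟨_, h, Or.inl ⟨rfl, rfl⟩⟩
  · exact ⟨_, h, Or.inr ⟨rfl, by simp [ed, tgt]⟩⟩
  · exact ⟨_, h, Or.inr ⟨rfl, by simp [ed, tgt]⟩⟩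

theorem dadj_ed {O : Set Edg} {g : St} (h : ed g ∈ O) : DAdj O (fc g) (fc (stc g)) := by
  obtain ⟨⟨x, y⟩, s⟩ := g
  cases s
  · exact ⟨_, h, Or.inl ⟨rfl, rfl⟩⟩
  · exact ⟨_, h, Or.inr ⟨rfl, rfl⟩⟩
  · exact ⟨_, h, Or.inr ⟨rfl, rfl⟩⟩
  · exact ⟨_, h, Or.inl ⟨rfl, rfl⟩⟩

theorem fc_sto (g : St) : fc (sto g) = fc g := by
  obtain ⟨⟨x, y⟩, s⟩ := g
  cases s <;> simp [fc, sto, mv, Cor.dn]

theorem reach_nxt (O : Set Edg) (g : St) : Reach O g.1 (nxt O g).1 := by
  by_cases h : ed g ∈ O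
  · rw [nxt_open h]
    exact (adj_ed h).reach
  · rw [nxt_closed h]
    exact Reach.refl _ _

theorem dreach_nxt (O : Set Edg) (g : St) : DReach Oᶜ (fc g) (fc (nxt O g)) := by
  by_cases h : ed g ∈ O
  · rw [nxt_open h, fc_sto]
    exact DReach.refl _ _
  · rw [nxt_closed h]
    exact (dadj_ed h).reach

theorem reach_iter (O : Set Edg) (g : St) (n : ℕ) : Reach O g.1 ((nxt O)^[n] g).1 := by
  induction n with
  | zero => exact Reach.refl _ _
  | succ n ih =>
    rw [Function.iterate_succ_apply']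
    exact ih.trans (reach_nxt O _)

theorem dreach_iter (O : Set Edg) (g : St) (n : ℕ) : DReach Oᶜ (fc g) (fc ((nxt O)^[n] g)) := by
  induction n with
  | zero => exact DReach.refl _ _
  | succ n ih =>
    rw [Function.iterate_succ_apply']
    exact ih.trans (dreach_nxt O _)

end Pool.Agent.Q294.SR
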