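import Pool.Agent.Q294.SR.Main

/-!
From the weighted winding sum to the sum rules, for all `q > 0`.
-/

set_option autoImplicit false

namespace Pool.Agent.Q294.SR

open H974 Pool.Agent.Q297.FKL

variable {m k c d : ℕ}

/-- weighted sum -/
noncomputable def S (r : ℝ) (m k c d : ℕ) (X : Finset Edg → ℕ) : ℝ :=
  ∑ ω ∈ (blk m k c d).powerset, r ^ ex m k c d ω * (X ω : ℝ)

theorem wsum' {z w : ℝ} (hzw : z * w = 1) (hW : S_WIND) (hc : c ≤ m) (hd : d ≤ k) :
    (w ^ 2 - w) * S (z + w) m k c d (rgt m k c d) + (w - 1) * S (z + w) m k c d (upp m k c d) +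
      (1 - z) * S (z + w) m k c d (lft k c d) + (w ^ 3 - w ^ 2) * S (z + w) m k c d (low m c d) +
      (1 - w) * S (z + w) m k c d (alow m k c d) +
      (w - w ^ 2) * S (z + w) m k c d (alft m k c d) -
      (w ^ 2 - 1) * S (z + w) m k c d (fun _ => 1) = 0 := by
  have hz : z ≠ 0 := by rintro rfl; simp at hzw
  have hw : w = z⁻¹ := by
    field_simp
    linarith
  have h := wsum (m := m) (k := k) hz hW hc hd
  have e1 : z ^ (-1 : ℤ) = w := by rw [zpow_neg_one, hw]
  have e2 : z ^ (-2 : ℤ) = w ^ 2 := by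
    rw [zpow_neg, hw, inv_pow]; norm_cast
  have e3 : z ^ (-3 : ℤ) = w ^ 3 := by
    rw [zpow_neg, hw, inv_pow]; norm_cast
  rw [e1, e2, e3, ← hw] at h
  unfold S
  simp only [Finset.mul_sum]
  rw [← Finset.sum_add_distrib, ← Finset.sum_add_distrib, ← Finset.sum_add_distrib,
    ← Finset.sum_add_distrib, ← Finset.sum_add_distrib, ← Finset.sum_sub_distrib, ← h]
  apply Finset.sum_congr rfl
  intro ω _
  push_cast
  ring

/-- the two rules for `r = z + 1 / z`, `z > 1` -/
theorem rules_z {z : ℝ} (hz : 1 < z) (hW : S_WIND) (hc : c ≤ m) (hd : d ≤ k) :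
    (S (z + z⁻¹) m k c d (rgt m k c d) + (z + z⁻¹) * S (z + z⁻¹) m k c d (low m c d) =
      S (z + z⁻¹) m k c d (fun _ => 1) + S (z + z⁻¹) m k c d (alft m k c d) +
        S (z + z⁻¹) m k c d (lft k c d)) ∧
    (S (z + z⁻¹) m k c d (upp m k c d) + (z + z⁻¹) * S (z + z⁻¹) m k c d (lft k c d) =
      S (z + z⁻¹) m k c d (fun _ => 1) + S (z + z⁻¹) m k c d (alow m k c d) +
        S (z + z⁻¹) m k c d (low m c d)) := by
  have hz0 : z ≠ 0 := by linarith
  obtain ⟨w, hw⟩ : ∃ w, w = z⁻¹ := ⟨_, rfl⟩
  rw [← hw]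
  have hzw : z * w = 1 := by rw [hw]; exact mul_inv_cancel₀ hz0
  have hw1 : w < 1 := by
    rw [hw]; exact inv_lt_one_of_one_lt₀ hz
  have h1 := wsum' (m := m) (k := k) hzw hW hc hd
  have h2 := wsum' (m := m) (k := k) (z := w) (w := z) (by rw [mul_comm]; exact hzw) hW hc hd
  rw [add_comm w z] at h2
  generalize S (z + w) m k c d (rgt m k c d) = R at *
  generalize S (z + w) m k c d (upp m k c d) = T at *
  generalize S (z + w) m k c d (lft k c d) = L at *
  generalize S (z + w) m k c d (low m c d) = B at *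
  generalize S (z + w) m k c d (alow m k c d) = Ab at *
  generalize S (z + w) m k c d (alft m k c d) = Al at *
  generalize S (z + w) m k c d (fun _ => 1) = Z at *
  -- divide by `w - 1` and `z - 1`
  have g1 : w * R + T + z * L + w ^ 2 * B - Ab - w * Al - (w + 1) * Z = 0 := by
    have : (w - 1) * (w * R + T + z * L + w ^ 2 * B - Ab - w * Al - (w + 1) * Z) = 0 := by
      linear_combination h1 + L * hzw
    rcases mul_eq_zero.mp this with h | h
    · linarith
    · exact h
  have g2 : z * R + T + w * L + z ^ 2 * B - Ab - z * Al - (z + 1) * Z = 0 := by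
    have : (z - 1) * (z * R + T + w * L + z ^ 2 * B - Ab - z * Al - (z + 1) * Z) = 0 := by
      linear_combination h2 + L * hzw
    rcases mul_eq_zero.mp this with h | h
    · linarith
    · exact h
  have g3 : R + (z + w) * B - Z - Al - L = 0 := by
    have : (z - w) * (R + (z + w) * B - Z - Al - L) = 0 := by
      linear_combination g2 - g1
    rcases mul_eq_zero.mp this with h | h
    · linarith
    · exact h
  constructor
  · linarith
  · have : T + (z + w) * L - Z - Ab - B = 0 := by
      linear_combination g1 - w * g3 + B * hzw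
    linarith

/-- A polynomial with real exponents and coefficients which vanishes at all `z + 1 / z`, `z > 1`,
is zero. -/
theorem poly_zero {P : Polynomial ℝ} (h : ∀ z : ℝ, 1 < z → P.eval (z + z⁻¹) = 0) : P = 0 := by
  apply Polynomial.eq_zero_of_infinite_isRoot
  have hinj : Set.InjOn (fun z : ℝ => z + z⁻¹) (Set.Ioi 1) := by
    intro x hx y hy hxy
    simp only [Set.mem_Ioi] at hx hy
    simp only at hxy
    have hx0 : x ≠ 0 := by linarith
    have hy0 : y ≠ 0 := by linarith
    have h1 : (x - y) * (x * y - 1) = 0 := by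
      field_simp at hxy
      linarith
    rcases mul_eq_zero.mp h1 with h | h
    · linarith
    · nlinarith
  have hinf := (Set.Ioi_infinite (1 : ℝ)).image hinj
  refine hinf.mono ?_
  rintro _ ⟨z, hz, rfl⟩
  exact h z hz

theorem rules (r : ℝ) (hW : S_WIND) (hc : c ≤ m) (hd : d ≤ k) :
    (S r m k c d (rgt m k c d) + r * S r m k c d (low m c d) =
      S r m k c d (fun _ => 1) + S r m k c d (alft m k c d) + S r m k c d (lft k c d)) ∧
    (S r m k c d (upp m k c d) + r * S r m k c d (lft k c d) =
      S r m k c d (fun _ => 1) + S r m k c d (alow m k c d) + S r m k c d (low m c d)) := by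
  obtain ⟨P, hP⟩ : ∃ P : (Finset Edg → ℕ) → Polynomial ℝ, ∀ X r, (P X).eval r =
      S r m k c d X := by
    refine ⟨fun X => ∑ ω ∈ (blk m k c d).powerset,
      Polynomial.X ^ ex m k c d ω * Polynomial.C (X ω : ℝ), ?_⟩
    intro X r
    unfold S
    rw [Polynomial.eval_finset_sum]
    simp
  have h1 : P (rgt m k c d) + Polynomial.X * P (low m c d) - P (fun _ => 1) -
      P (alft m k c d) - P (lft k c d) = 0 := by
    apply poly_zero
    intro z hz
    have := (rules_z (m := m) (k := k) hz hW hc hd).1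
    simp only [Polynomial.eval_sub, Polynomial.eval_add, Polynomial.eval_mul, Polynomial.eval_X,
      hP]
    linarith
  have h2 : P (upp m k c d) + Polynomial.X * P (lft k c d) - P (fun _ => 1) -
      P (alow m k c d) - P (low m c d) = 0 := by
    apply poly_zero
    intro z hz
    have := (rules_z (m := m) (k := k) hz hW hc hd).2
    simp only [Polynomial.eval_sub, Polynomial.eval_add, Polynomial.eval_mul, Polynomial.eval_X,
      hP]
    linarith
  have g1 := congrArg (Polynomial.eval r) h1
  have g2 := congrArg (Polynomial.eval r) h2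
  simp only [Polynomial.eval_sub, Polynomial.eval_add, Polynomial.eval_mul, Polynomial.eval_X,
    hP, Polynomial.eval_zero] at g1 g2
  constructor <;> linarith

theorem wt_eq {q : ℝ} (hq : 0 < q) (ω : Finset Edg) : wt q m k c d ω = √q ^ ex m k c d ω := by
  unfold wt ex
  rw [pow_add, pow_mul, Real.sq_sqrt hq.le]

theorem sum_wt {q : ℝ} (hq : 0 < q) (X : Finset Edg → ℕ) :
    ∑ ω ∈ (blk m k c d).powerset, wt q m k c d ω * X ω = S √q m k c d X := by
  unfold S
  apply Finset.sum_congr rfl
  intro ω _
  rw [wt_eq hq]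

theorem Z_pos {q : ℝ} (hq : 0 < q) : 0 < ∑ ω ∈ (blk m k c d).powerset, wt q m k c d ω := by
  apply Finset.sum_pos
  · intro ω _
    rw [wt_eq hq]
    exact pow_pos (Real.sqrt_pos.mpr hq) _
  · exact ⟨∅, Finset.empty_mem_powerset _⟩

/-- **The sum rules.** -/
theorem sum_rules (hW : S_WIND) {q : ℝ} (hq : 0 < q) (hc : c ≤ m) (hd : d ≤ k) :
    (mean q m k c d (rgt m k c d) + √q * mean q m k c d (low m c d) =
      1 + mean q m k c d (alft m k c d) + mean q m k c d (lft k c d)) ∧
    (mean q m k c d (upp m k c d) + √q * mean q m k c d (lft k c d) =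
      1 + mean q m k c d (alow m k c d) + mean q m k c d (low m c d)) := by
  have hZ := Z_pos (m := m) (k := k) (c := c) (d := d) hq
  have hZ1 : S √q m k c d (fun _ => 1) = ∑ ω ∈ (blk m k c d).powerset, wt q m k c d ω := by
    rw [← sum_wt hq]
    simp
  obtain ⟨h1, h2⟩ := rules (m := m) (k := k) √q hW hc hd
  rw [hZ1] at h1 h2
  unfold mean
  simp only [sum_wt hq]
  generalize (∑ ω ∈ (blk m k c d).powerset, wt q m k c d ω) = Z at *
  constructor
  · field_simp
    linarith
  · field_simp
    linarith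

end Pool.Agent.Q294.SR
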