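import Pool.Agent.Q294.SR.Main

/-!
The flux through a vertical line.
-/

set_option autoImplicit false

namespace Pool.Agent.Q294.SR

open H974 Pool.Agent.Q297.FKL

variable {m k c d : ℕ} {O : Set Edg}

/-- the edges whose midpoint is to the right of the line `x = a + 1/4` -/
def RegE (a : ℕ) (e : Edg) : Prop := if e.2.2 then (a : ℤ) ≤ e.1 else (a : ℤ) + 1 ≤ e.1

/-- the states whose edge is there -/
def Reg (a : ℕ) (g : St) : Prop := RegE a (ed g)

/-- the corners which cross the line -/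
def East (a : ℕ) (g : St) : Prop := g.1.1 = a ∧ (g.2 = .se ∨ g.2 = .ne)

theorem reg_se {a : ℕ} {v : Vtx} : Reg a (v, .se) ↔ (a : ℤ) ≤ v.1 := by simp [Reg, RegE, ed]
theorem reg_ne {a : ℕ} {v : Vtx} : Reg a (v, .ne) ↔ (a : ℤ) + 1 ≤ v.1 := by simp [Reg, RegE, ed]
theorem reg_nw {a : ℕ} {v : Vtx} : Reg a (v, .nw) ↔ (a : ℤ) ≤ v.1 - 1 := by simp [Reg, RegE, ed]
theorem reg_sw {a : ℕ} {v : Vtx} : Reg a (v, .sw) ↔ (a : ℤ) + 1 ≤ v.1 := by simp [Reg, RegE, ed]

/-- the region changes only at the crossing corners -/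
theorem reg_nxt {a : ℕ} (g : St) (h : ¬ East a (nxt O g)) : Reg a (nxt O g) ↔ Reg a g := by
  obtain ⟨⟨x, y⟩, s⟩ := g
  by_cases ho : ed ((x, y), s) ∈ O
  · rw [nxt_open ho] at h ⊢
    cases s <;> simp only [sto, mv, Cor.dn, East, reg_se, reg_ne, reg_nw, reg_sw, reduceCtorEq,
      or_false, false_or, or_self, and_false, and_true, not_false_eq_true] at h ⊢ <;> omega
  · rw [nxt_closed ho] at h ⊢
    cases s <;> simp only [stc, Cor.up, East, reg_se, reg_ne, reg_nw, reg_sw, reduceCtorEq,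
      or_false, false_or, or_self, and_false, and_true, not_false_eq_true] at h ⊢ <;> omega

open Classical in
theorem abel (χ f : ℕ → ℂ) (T : ℕ) : ∑ j ∈ Finset.range T, χ j * (f j - f (j + 1)) =
    χ 0 * f 0 - χ T * f T + ∑ j ∈ Finset.range T, (χ (j + 1) - χ j) * f (j + 1) := by
  induction T with
  | zero => simp
  | succ T ih =>
    rw [Finset.sum_range_succ, Finset.sum_range_succ, ih]
    ring

/-- sum over the walk -/
theorem Cf.sum_walk (H : Cf m k c d O) {M : Type*} [AddCommMonoid M] (Φ : St → M)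
    [DecidablePred (fun g => OnP (nxt O) (aa c) (bb d) g)] :
    ∑ g ∈ (RS m k).filter (fun g => OnP (nxt O) (aa c) (bb d) g), Φ g =
      ∑ j ∈ Finset.range (tm (nxt O) (bb d) (aa c)), Φ ((nxt O)^[j] (aa c)) := by
  classical
  have hset : (RS m k).filter (fun g => OnP (nxt O) (aa c) (bb d) g) =
      (Finset.range (tm (nxt O) (bb d) (aa c))).image (fun j => (nxt O)^[j] (aa c)) := by
    ext g
    simp only [Finset.mem_filter, Finset.mem_image, Finset.mem_range]
    constructor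
    · rintro ⟨_, j, hj, rfl⟩
      exact ⟨j, hj, rfl⟩
    · rintro ⟨j, hj, rfl⟩
      exact ⟨mem_RS.mpr (H.iter_R H.hit_aa j), j, hj, rfl⟩
  rw [hset, Finset.sum_image]
  intro i hi j hj he
  simp only [Finset.coe_range, Set.mem_Iio] at hi hj
  exact walk_inj (nxt_inj O) H.hit_aa hi.le hj.le he

open Classical in
/-- The flux into the region is carried by the crossing corners. -/
theorem Cf.flux (H : Cf m k c d O) (hW : S_WIND) {z : ℂ} (hz : ‖z‖ = 1) (a : ℕ) :
    ‖∑ g ∈ RS m k, (if Reg a g then F z O c d g else 0) -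
      (if a < c then z ^ (-2 : ℤ) else 0)‖ ≤
    ∑ g ∈ RS m k, (if OnP (nxt O) (aa c) (bb d) g ∧ East a g then (1 : ℝ) else 0) := by
  have hn : ∀ n : ℤ, ‖z ^ n‖ = 1 := fun n => by rw [norm_zpow, hz, one_zpow]
  obtain ⟨T, hT⟩ : ∃ T, T = tm (nxt O) (bb d) (aa c) := ⟨_, rfl⟩
  obtain ⟨χ, hχ⟩ : ∃ χ : ℕ → ℂ, χ = fun j => if Reg a ((nxt O)^[j] (aa c)) then 1 else 0 :=
    ⟨_, rfl⟩
  obtain ⟨f, hf⟩ : ∃ f : ℕ → ℂ, f = fun j => z ^ (-N O d ((nxt O)^[j] (aa c))) := ⟨_, rfl⟩
  obtain ⟨e, he⟩ : ∃ e : ℕ → ℝ, e = fun j => if East a ((nxt O)^[j] (aa c)) then 1 else 0 :=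
    ⟨_, rfl⟩
  have h1 : ∑ g ∈ RS m k, (if Reg a g then F z O c d g else 0) =
      ∑ j ∈ Finset.range T, χ j * (f j - f (j + 1)) := by
    have h2 : ∀ g : St, (if Reg a g then F z O c d g else 0) =
        if OnP (nxt O) (aa c) (bb d) g then (if Reg a g then 1 else 0) *
          (z ^ (-N O d g) - z ^ (-N O d (nxt O g))) else 0 := by
      intro g
      unfold F
      split_ifs <;> simp
    rw [Finset.sum_congr rfl (fun g _ => h2 g), ← Finset.sum_filter, H.sum_walk, ← hT]
    apply Finset.sum_congr rfl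
    intro j _
    rw [hχ, hf]
    simp only [Function.iterate_succ_apply']
  have h3 : ∑ g ∈ RS m k, (if OnP (nxt O) (aa c) (bb d) g ∧ East a g then (1 : ℝ) else 0) =
      ∑ j ∈ Finset.range T, e j := by
    have h2 : ∀ g : St, (if OnP (nxt O) (aa c) (bb d) g ∧ East a g then (1 : ℝ) else 0) =
        if OnP (nxt O) (aa c) (bb d) g then (if East a g then 1 else 0) else 0 := by
      intro g
      by_cases g1 : OnP (nxt O) (aa c) (bb d) g <;> by_cases g2 : East a g <;> simp [g1, g2]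
    rw [Finset.sum_congr rfl (fun g _ => h2 g), ← Finset.sum_filter, H.sum_walk, ← hT, he]
  have hχT : χ T = 0 := by
    rw [hχ, hT]
    simp only [tm_spec H.hit_aa]
    rw [if_neg]
    rw [bb, reg_nw]
    simp only
    omega
  have heT : e T = 0 := by
    rw [he, hT]
    simp only [tm_spec H.hit_aa]
    rw [if_neg]
    simp [East, bb]
  have hf0 : f 0 = z ^ (-2 : ℤ) := by
    rw [hf]
    simp only [Function.iterate_zero, id]
    rw [show N O d (aa c) = 2 from H.N_se hW H.hit_aa]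
  have hstep : ∀ j, ‖(χ (j + 1) - χ j) * f (j + 1)‖ ≤ e (j + 1) := by
    intro j
    rw [norm_mul, hf]
    simp only
    rw [hn, mul_one, hχ, he]
    simp only [Function.iterate_succ_apply']
    by_cases h4 : East a (nxt O ((nxt O)^[j] (aa c)))
    · rw [if_pos h4]
      split_ifs <;> simp
    · rw [if_neg h4]
      have h5 := reg_nxt _ h4
      by_cases h6 : Reg a ((nxt O)^[j] (aa c))
      · rw [if_pos h6, if_pos (h5.mpr h6)]; simp
      · rw [if_neg h6, if_neg (fun h => h6 (h5.mp h))]; simp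
  have hsum : ‖∑ j ∈ Finset.range T, (χ (j + 1) - χ j) * f (j + 1)‖ ≤
      ∑ j ∈ Finset.range T, e (j + 1) :=
    (norm_sum_le _ _).trans (Finset.sum_le_sum (fun j _ => hstep j))
  have hshift : ∑ j ∈ Finset.range T, e (j + 1) = ∑ j ∈ Finset.range T, e j - e 0 := by
    have h4 := Finset.sum_range_succ e T
    have h5 := Finset.sum_range_succ' e T
    rw [heT] at h4
    linarith
  have hR : Reg a (aa c) ↔ a ≤ c := by rw [aa, reg_se]; simp
  have hE : East a (aa c) ↔ a = c := by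
    simp only [aa, East, true_or, and_true]; omega
  have hχ0 : χ 0 = if a ≤ c then 1 else 0 := by
    rw [hχ]
    by_cases h1 : a ≤ c
    · rw [if_pos h1]; exact if_pos (hR.mpr h1)
    · rw [if_neg h1]; exact if_neg (fun h => h1 (hR.mp h))
  have he0 : e 0 = if a = c then 1 else 0 := by
    rw [he]
    by_cases h1 : a = c
    · rw [if_pos h1]; exact if_pos (hE.mpr h1)
    · rw [if_neg h1]; exact if_neg (fun h => h1 (hE.mp h))
  have h0 : ‖χ 0 * f 0 - (if a < c then z ^ (-2 : ℤ) else 0)‖ ≤ e 0 := by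
    rw [hf0, hχ0, he0]
    by_cases h1 : a < c
    · rw [if_pos h1, if_pos h1.le, if_neg (by omega)]
      simp
    · rw [if_neg h1]
      by_cases h2 : a = c
      · rw [if_pos h2.le, if_pos h2, one_mul, sub_zero, hn]
      · rw [if_neg (by omega), if_neg h2]
        simp
  rw [h1, h3, abel, hχT, zero_mul, sub_zero]
  have h6 : χ 0 * f 0 + ∑ j ∈ Finset.range T, (χ (j + 1) - χ j) * f (j + 1) -
      (if a < c then z ^ (-2 : ℤ) else 0) =
      (χ 0 * f 0 - (if a < c then z ^ (-2 : ℤ) else 0)) +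
        ∑ j ∈ Finset.range T, (χ (j + 1) - χ j) * f (j + 1) := by ring
  rw [h6]
  refine (norm_add_le _ _).trans ?_
  linarith

/-! ### the crossing number -/

/-- The loop passes the corners between a vertex connected to the arc and a face connected to the
outside. -/
theorem Cf.hit_iff (H : Cf m k c d O) (g : St) : Hit (nxt O) (bb d) g ↔
    Reach O (0, 0) g.1 ∧ DReach Oᶜ (fc g) ((m : ℤ), (k : ℤ)) := by
  constructor
  · rintro ⟨n, hn⟩
    have h1 := reach_iter O g n
    have h2 := dreach_iter O g n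
    rw [hn] at h1 h2
    refine ⟨(H.reach_iff _).mp h1.symm, h2.trans ?_⟩
    simpa [bb, fc] using H.outer
  · rintro ⟨h1, h2⟩
    obtain ⟨u, u', g1, _, g3, g4, g5, g6⟩ := H.pot
    have h3 := g3 (((m : ℤ) + 1, (k : ℤ)), .nw) (fun h => by
      have := h.2.1; simp only at this; omega)
    rw [← ff_iff, ← g1 g, ← g4 _ _ ((H.reach_iff _).mpr h1), g6, g5 _ _ h2]
    simp only [fc, add_sub_cancel_right] at h3
    rw [h3]
    ring

open Classical in
theorem cnt_crs {ω : Finset Edg} (H : Cf m k c d (opn c d ω)) {a : ℕ} (ha : a < m) :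
    ∑ g ∈ RS m k, (if OnP (nxt (opn c d ω)) (aa c) (bb d) g ∧ East a g then (1 : ℝ) else 0) =
      (crs m k c d a ω : ℝ) := by
  unfold crs
  push_cast
  have h1 : ∑ g ∈ RS m k, (if g = ((((a : ℕ) : ℤ), g.1.2), .ne) ∧
      OnP (nxt (opn c d ω)) (aa c) (bb d) g then (1 : ℝ) else 0) =
      (((Finset.Icc 0 (k : ℤ)).filter fun y => Reach (opn c d ω) (0, 0) (a, y) ∧
        DReach (opn c d ω)ᶜ (a, y) (m, k)).card : ℝ) := by
    apply cnt (K := ℝ) (φ := fun y : ℤ => (((a : ℤ), y), .ne))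
    · intro y y' h
      simpa using h
    · intro y hy hq
      rw [Finset.mem_Icc] at hy
      have hno : ¬ Out c d (((a : ℤ), y), .ne) := fun h => h
      refine ⟨mem_RS.mpr ⟨by simp, by simp only; omega, hy.1, hy.2⟩, rfl, ?_⟩
      rw [H.onP_iff hno, H.hit_iff]
      exact hq
    · rintro g hg ⟨h1, h2⟩
      rw [mem_RS] at hg
      refine ⟨g.1.2, Finset.mem_Icc.mpr ⟨hg.2.2.1, hg.2.2.2⟩, ?_, h1.symm⟩
      have h3 := (H.hit_iff g).mp (onP_hit H.hit_aa h2)
      rw [h1] at h3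
      exact h3
  have h2 : ∑ g ∈ RS m k, (if g = ((((a : ℕ) : ℤ), g.1.2), .se) ∧
      OnP (nxt (opn c d ω)) (aa c) (bb d) g then (1 : ℝ) else 0) =
      (((Finset.Icc 0 (k : ℤ)).filter fun y => (0 < y ∨ c ≤ a) ∧
        Reach (opn c d ω) (0, 0) (a, y) ∧
          DReach (opn c d ω)ᶜ (a, y - 1) (m, k)).card : ℝ) := by
    apply cnt (K := ℝ) (φ := fun y : ℤ => (((a : ℤ), y), .se))
    · intro y y' h
      simpa using h
    · intro y hy hq
      rw [Finset.mem_Icc] at hy
      have hno : ¬ Out c d (((a : ℤ), y), .se) := by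
        rintro ⟨h, _, h'⟩
        simp only at h h'
        rcases hq.1 with h1 | h1 <;> omega
      refine ⟨mem_RS.mpr ⟨by simp, by simp only; omega, hy.1, hy.2⟩, rfl, ?_⟩
      rw [H.onP_iff hno, H.hit_iff]
      exact hq.2
    · rintro g hg ⟨h1, h2⟩
      rw [mem_RS] at hg
      refine ⟨g.1.2, Finset.mem_Icc.mpr ⟨hg.2.2.1, hg.2.2.2⟩, ?_, h1.symm⟩
      have h3 := (H.hit_iff g).mp (onP_hit H.hit_aa h2)
      have h4 := H.onP_not_out h2
      rw [h1] at h3 h4
      refine ⟨?_, h3⟩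
      by_contra hcon
      apply h4
      have hy := hg.2.2.1
      refine ⟨?_, ?_, ?_⟩ <;> simp only <;> omega
  rw [← h1, ← h2, ← Finset.sum_add_distrib]
  apply Finset.sum_congr rfl
  rintro ⟨⟨x, y⟩, s⟩ _
  by_cases hP : OnP (nxt (opn c d ω)) (aa c) (bb d) ((x, y), s)
  · by_cases hx : x = a
    · subst hx
      cases s <;> simp [East, hP]
    · cases s <;> simp [East, hP, hx]
  · simp [hP]

end Pool.Agent.Q294.SR
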