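import Pool.Agent.Q294.SR.Line
import Pool.Agent.Q294.SR.Fin

/-!
The number of crossings of a vertical line.
-/

set_option autoImplicit false

namespace Pool.Agent.Q294.SR

open H974 Pool.Agent.Q297.FKL

variable {m k c d : ℕ} {O : Set Edg}

/-- the number of the first six classes in the region -/
theorem PR_reg {a : ℕ} (ha : a < m) {g : St} (h : PR m c d O g) : Reg a g := by
  obtain ⟨⟨x, y⟩, s⟩ := g
  obtain ⟨h1, h2, _⟩ := h
  simp only at h1 h2
  subst h1
  rw [reg_se]
  simp only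
  omega

theorem PL_reg {a : ℕ} {g : St} (h : PL c d O g) : ¬ Reg a g := by
  obtain ⟨⟨x, y⟩, s⟩ := g
  obtain ⟨h1, h2, _⟩ := h
  simp only at h1 h2
  subst h1
  rw [reg_nw]
  simp only
  omega

theorem Pl_reg {a : ℕ} {g : St} (h : Pl c d O g) : ¬ Reg a g := by
  obtain ⟨⟨x, y⟩, s⟩ := g
  obtain ⟨h1, h2, _⟩ := h
  simp only at h1 h2
  subst h1
  rw [reg_ne]
  simp only
  omega

open Classical in
theorem cnt_Ba {ω : Finset Edg} (H : Cf m k c d (opn c d ω)) (a : ℕ) :
    ∑ g ∈ RS m k, (if Reg a g ∧ PB c d (opn c d ω) g then (1 : ℂ) else 0) =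
      (lowr m c d a ω : ℂ) := by
  unfold lowr
  apply cnt (K := ℂ) (φ := fun x : ℤ => ((x, 0), .sw))
  · intro y y' h
    simpa using h
  · intro x hx hq
    rw [Finset.mem_Ioc, max_lt_iff] at hx
    refine ⟨mem_RS.mpr ⟨by simp only; omega, hx.2, by simp, by simp⟩, ?_, rfl, rfl, hx.1.2,
      (H.on_low hx.1.2).mpr hq⟩
    rw [reg_sw]
    simp only
    omega
  · rintro ⟨⟨x, y⟩, s⟩ hg ⟨h0, h1, h2, h3, h4⟩
    rw [mem_RS] at hg
    simp only at h1 h2 h3
    subst h1
    subst h2
    rw [reg_sw] at h0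
    simp only at h0
    exact ⟨x, Finset.mem_Ioc.mpr ⟨max_lt (by omega) h3, hg.2.1⟩, (H.on_low h3).mp h4, rfl⟩

open Classical in
/-- The boundary part of the region. -/
theorem Cf.reg_bdry {ω : Finset Edg} (H : Cf m k c d (opn c d ω)) (hW : S_WIND) (z : ℂ) {a : ℕ}
    (ha : a < m) : ∃ τ : ℝ,
    ∑ g ∈ RS m k, (if Reg a g then (if ed g ∈ blk m k c d then 0 else F z (opn c d ω) c d g)
      else 0) =
      (z ^ (-2 : ℤ) - z ^ (-1 : ℤ)) * (rgt m k c d ω : ℂ) +
      (z ^ (-3 : ℤ) - z ^ (-2 : ℤ)) * (lowr m c d a ω : ℂ) + (z ^ (-1 : ℤ) - 1) * (τ : ℂ) := by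
  refine ⟨∑ g ∈ RS m k, (if Reg a g ∧ PT k c d (opn c d ω) g then (1 : ℝ) else 0) -
    ∑ g ∈ RS m k, (if Reg a g ∧ Pb c d (opn c d ω) g then (1 : ℝ) else 0), ?_⟩
  rw [← cnt_R H, ← cnt_Ba H]
  push_cast
  rw [← Finset.sum_sub_distrib]
  simp only [Finset.mul_sum]
  rw [← Finset.sum_add_distrib, ← Finset.sum_add_distrib]
  apply Finset.sum_congr rfl
  intro g hg
  have hb := H.bdry hW z hg
  by_cases hr : Reg a g
  · rw [if_pos hr, hb, if_neg (fun h => PL_reg h hr), if_neg (fun h => Pl_reg h hr)]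
    simp only [hr, true_and]
    split_ifs <;> push_cast <;> ring
  · have h1 : ¬ PR m c d (opn c d ω) g := fun h => hr (PR_reg ha h)
    simp [hr, h1]

/-- splitting the sum over the region -/
theorem split_reg {ω : Finset Edg} (z : ℂ) (a : ℕ) [DecidablePred (RegE a)]
    [DecidablePred (Reg a)] :
    ∑ g ∈ RS m k, (if Reg a g then F z (opn c d ω) c d g else 0) =
      ∑ g ∈ (RS m k).filter (fun g => ed g ∈ (blk m k c d).filter (RegE a)),
        F z (opn c d ω) c d g +
      ∑ g ∈ RS m k, (if Reg a g then (if ed g ∈ blk m k c d then 0 else F z (opn c d ω) c d g)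
        else 0) := by
  rw [Finset.sum_filter, ← Finset.sum_add_distrib]
  apply Finset.sum_congr rfl
  intro g _
  by_cases h1 : Reg a g <;> by_cases h2 : ed g ∈ blk m k c d
  · have h3 : RegE a (ed g) := h1
    simp [h1, h2, h3]
  · simp [h1, h2]
  · have h3 : ¬ RegE a (ed g) := h1
    simp [h1, h3]
  · simp [h1, h2]

/-- The inequality for the weighted sums; `x = √q / 2`, `s = √(1 - q / 4)`. -/
theorem line_sum (hW : S_WIND) (hc : c ≤ m) (hd : d ≤ k) {a : ℕ} (ha : a < m) {x s : ℝ}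
    (hx : x < 1) (hx0 : 0 ≤ x) (hs : 0 ≤ s) (hxs : x ^ 2 + s ^ 2 = 1) :
    √(2 - 2 * x) * s * (S (2 * x) m k c d (rgt m k c d) +
      2 * x * S (2 * x) m k c d (lowr m c d a) - S (2 * x) m k c d (fun _ => 1)) ≤
    S (2 * x) m k c d (crs m k c d a) := by
  classical
  obtain ⟨z, hz⟩ : ∃ z : ℂ, z = ⟨x, s⟩ := ⟨_, rfl⟩
  obtain ⟨v, hv⟩ : ∃ v : ℂ, v = ⟨x, -s⟩ := ⟨_, rfl⟩
  have hzv : z * v = 1 := by
    rw [hz, hv]
    apply Complex.ext
    · simp [Complex.mul_re]; nlinarith
    · simp [Complex.mul_im]; ring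
  have hz0 : z ≠ 0 := by rintro rfl; simp at hzv
  have hvz : z⁻¹ = v := inv_eq_of_mul_eq_one_right hzv
  have hzn : ‖z‖ = 1 := by
    have h1 : Complex.normSq z = 1 := by
      rw [hz, Complex.normSq_mk]; nlinarith
    rw [Complex.norm_def, h1, Real.sqrt_one]
  have hsum : z + z⁻¹ = ((2 * x : ℝ) : ℂ) := by
    rw [hvz, hz, hv]
    apply Complex.ext <;> simp
    ring
  have hn : ‖z - 1‖ = √(2 - 2 * x) := by
    rw [Complex.norm_def]
    congr 1
    rw [hz, show (⟨x, s⟩ : ℂ) - 1 = ⟨x - 1, s⟩ by apply Complex.ext <;> simp, Complex.normSq_mk]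
    nlinarith
  have e1 : z ^ (-1 : ℤ) = v := by rw [zpow_neg_one, hvz]
  have e2 : z ^ (-2 : ℤ) = v ^ 2 := by rw [zpow_neg, ← hvz, inv_pow]; norm_cast
  have e3 : z ^ (-3 : ℤ) = v ^ 3 := by rw [zpow_neg, ← hvz, inv_pow]; norm_cast
  -- the functional
  have l1 : ((v ^ 2 - v) * (z - 1)).im = -(2 * s * (1 - x)) := by
    have : (v ^ 2 - v) * (z - 1) = 2 * v - v ^ 2 - 1 := by
      linear_combination (v - 1) * hzv
    rw [this, hv]
    simp [pow_two, Complex.mul_im]
    ring
  have l2 : ((v ^ 3 - v ^ 2) * (z - 1)).im = -(2 * x * (2 * s * (1 - x))) := by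
    have : (v ^ 3 - v ^ 2) * (z - 1) = 2 * v ^ 2 - v ^ 3 - v := by
      linear_combination (v ^ 2 - v) * hzv
    rw [this, hv]
    simp only [pow_succ, pow_zero, one_mul, Complex.sub_im, Complex.mul_im, Complex.mul_re]
    simp
    linear_combination (-s) * hxs
  have l3 : ((v - 1) * (z - 1)).im = 0 := by
    have : (v - 1) * (z - 1) = 2 - v - z := by linear_combination hzv
    rw [this, hv, hz]
    simp
  have l4 : (v ^ 2 * (z - 1)).im = s * (2 * x - 1) := by
    have : v ^ 2 * (z - 1) = v - v ^ 2 := by linear_combination v * hzv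
    rw [this, hv]
    simp [pow_two, Complex.mul_im]
    ring
  -- one configuration
  have key : ∀ ω ∈ (blk m k c d).powerset,
      (if a < c then s * (2 * x - 1) else 0) + 2 * s * (1 - x) * (rgt m k c d ω : ℝ) +
        2 * x * (2 * s * (1 - x)) * (lowr m c d a ω : ℝ) - √(2 - 2 * x) * (crs m k c d a ω : ℝ) ≤
      ((∑ g ∈ (RS m k).filter (fun g => ed g ∈ (blk m k c d).filter (RegE a)),
        F z (opn c d ω) c d g) * (z - 1)).im := by
    intro ω hω
    have H := cf_opn hc hd (Finset.mem_powerset.mp hω)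
    obtain ⟨τ, hτ⟩ := H.reg_bdry hW z ha
    have h1 := split_reg (m := m) (k := k) (c := c) (d := d) (ω := ω) z a
    have h2 := H.flux hW hzn a
    rw [cnt_crs H ha] at h2
    obtain ⟨X, hX⟩ : ∃ X : ℂ, X = ∑ g ∈ RS m k, (if Reg a g then F z (opn c d ω) c d g else 0) -
      (if a < c then z ^ (-2 : ℤ) else 0) := ⟨_, rfl⟩
    rw [← hX] at h2
    have h3 : ∑ g ∈ (RS m k).filter (fun g => ed g ∈ (blk m k c d).filter (RegE a)),
        F z (opn c d ω) c d g = X + (if a < c then v ^ 2 else 0) - (v ^ 2 - v) *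
          (rgt m k c d ω : ℂ) - (v ^ 3 - v ^ 2) * (lowr m c d a ω : ℂ) - (v - 1) * (τ : ℂ) := by
      rw [← e2, ← e3, ← e1, hX, h1, hτ]
      ring
    rw [h3]
    have h4 : (X + (if a < c then v ^ 2 else 0) - (v ^ 2 - v) *
          (rgt m k c d ω : ℂ) - (v ^ 3 - v ^ 2) * (lowr m c d a ω : ℂ) - (v - 1) * (τ : ℂ)) *
          (z - 1) = X * (z - 1) + (if a < c then v ^ 2 * (z - 1) else 0) -
          ((rgt m k c d ω : ℝ) : ℂ) * ((v ^ 2 - v) * (z - 1)) -
          ((lowr m c d a ω : ℝ) : ℂ) * ((v ^ 3 - v ^ 2) * (z - 1)) -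
          ((τ : ℝ) : ℂ) * ((v - 1) * (z - 1)) := by
      push_cast
      split_ifs <;> ring
    rw [h4]
    simp only [Complex.sub_im, Complex.add_im, Complex.im_ofReal_mul, l1, l2, l3]
    have h5 : (if a < c then v ^ 2 * (z - 1) else 0).im =
        if a < c then s * (2 * x - 1) else 0 := by
      split_ifs
      · exact l4
      · simp
    rw [h5]
    have h6 : |(X * (z - 1)).im| ≤ √(2 - 2 * x) * (crs m k c d a ω : ℝ) := by
      refine (Complex.abs_im_le_norm _).trans ?_
      rw [norm_mul, hn, mul_comm]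
      exact mul_le_mul_of_nonneg_left h2 (Real.sqrt_nonneg _)
    have h7 := (abs_le.mp h6).1
    linarith
  have hzero := blk_zero (m := m) (k := k) (z := z) hz0 hW hc hd
    (E := (blk m k c d).filter (RegE a)) (Finset.filter_subset _ _)
  rw [hsum] at hzero
  have hz2 : ∑ ω ∈ (blk m k c d).powerset, (2 * x) ^ ex m k c d ω *
      ((∑ g ∈ (RS m k).filter (fun g => ed g ∈ (blk m k c d).filter (RegE a)),
        F z (opn c d ω) c d g) * (z - 1)).im = 0 := by
    have h1 : ((∑ ω ∈ (blk m k c d).powerset, (((2 * x : ℝ) : ℂ)) ^ ex m k c d ω *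
      ∑ g ∈ (RS m k).filter (fun g => ed g ∈ (blk m k c d).filter (RegE a)),
        F z (opn c d ω) c d g) * (z - 1)).im = 0 := by
      rw [hzero]; simp
    rw [Finset.sum_mul, Complex.im_sum] at h1
    rw [← h1]
    apply Finset.sum_congr rfl
    intro ω _
    rw [mul_assoc, ← Complex.ofReal_pow, Complex.im_ofReal_mul]
  have hle : ∑ ω ∈ (blk m k c d).powerset, (2 * x) ^ ex m k c d ω *
      ((if a < c then s * (2 * x - 1) else 0) + 2 * s * (1 - x) * (rgt m k c d ω : ℝ) +
        2 * x * (2 * s * (1 - x)) * (lowr m c d a ω : ℝ) -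
        √(2 - 2 * x) * (crs m k c d a ω : ℝ)) ≤ 0 := by
    refine le_trans (Finset.sum_le_sum fun ω hω => ?_) hz2.le
    exact mul_le_mul_of_nonneg_left (key ω hω) (pow_nonneg (by linarith) _)
  have hexp : ∑ ω ∈ (blk m k c d).powerset, (2 * x) ^ ex m k c d ω *
      ((if a < c then s * (2 * x - 1) else 0) + 2 * s * (1 - x) * (rgt m k c d ω : ℝ) +
        2 * x * (2 * s * (1 - x)) * (lowr m c d a ω : ℝ) -
        √(2 - 2 * x) * (crs m k c d a ω : ℝ)) =
      (if a < c then s * (2 * x - 1) else 0) * S (2 * x) m k c d (fun _ => 1) +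
        2 * s * (1 - x) * S (2 * x) m k c d (rgt m k c d) +
        2 * x * (2 * s * (1 - x)) * S (2 * x) m k c d (lowr m c d a) -
        √(2 - 2 * x) * S (2 * x) m k c d (crs m k c d a) := by
    unfold S
    simp only [Finset.mul_sum]
    rw [← Finset.sum_add_distrib, ← Finset.sum_add_distrib, ← Finset.sum_sub_distrib]
    apply Finset.sum_congr rfl
    intro ω _
    push_cast
    ring
  rw [hexp] at hle
  have hZ : 0 ≤ S (2 * x) m k c d (fun _ => 1) := by
    unfold S
    exact Finset.sum_nonneg (fun ω _ => mul_nonneg (pow_nonneg (by linarith) _) (by simp))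
  obtain ⟨u, hu⟩ : ∃ u, u = √(2 - 2 * x) := ⟨_, rfl⟩
  have hu0 : 0 < u := by rw [hu]; exact Real.sqrt_pos.mpr (by linarith)
  have hu2 : u ^ 2 = 2 - 2 * x := by rw [hu]; exact Real.sq_sqrt (by linarith)
  rw [← hu] at hle ⊢
  have hfin : u * (u * s * (S (2 * x) m k c d (rgt m k c d) +
      2 * x * S (2 * x) m k c d (lowr m c d a) - S (2 * x) m k c d (fun _ => 1))) ≤
      u * S (2 * x) m k c d (crs m k c d a) := by
    have h8 : u * (u * s * (S (2 * x) m k c d (rgt m k c d) +
      2 * x * S (2 * x) m k c d (lowr m c d a) - S (2 * x) m k c d (fun _ => 1))) =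
      (2 - 2 * x) * s * (S (2 * x) m k c d (rgt m k c d) +
      2 * x * S (2 * x) m k c d (lowr m c d a) - S (2 * x) m k c d (fun _ => 1)) := by
      rw [← hu2]; ring
    rw [h8]
    have h9 : -((2 - 2 * x) * s * S (2 * x) m k c d (fun _ => 1)) ≤
        (if a < c then s * (2 * x - 1) else 0) * S (2 * x) m k c d (fun _ => 1) := by
      have h10 : -((2 - 2 * x) * s) ≤ (if a < c then s * (2 * x - 1) else 0) := by
        split_ifs
        · nlinarith
        · have := mul_nonneg (show 0 ≤ 2 - 2 * x by linarith) hs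
          linarith
      have := mul_le_mul_of_nonneg_right h10 hZ
      linarith
    linarith
  exact le_of_mul_le_mul_left hfin hu0

/-- **The number of crossings of a vertical line.** -/
theorem line (hW : S_WIND) {q : ℝ} (hq : 0 < q) (hq4 : q ≤ 4) (hc : c ≤ m) (hd : d ≤ k) {a : ℕ}
    (ha : a < m) :
    √((2 - √q) * (1 - q / 4)) * (mean q m k c d (rgt m k c d) +
      √q * mean q m k c d (lowr m c d a) - 1) ≤ mean q m k c d (crs m k c d a) := by
  have hZ := Z_pos (m := m) (k := k) (c := c) (d := d) hq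
  rcases hq4.lt_or_eq with hq4' | rfl
  · have hq2 : √q < 2 := by
      rw [show (2 : ℝ) = √4 by rw [show (4 : ℝ) = 2 ^ 2 by norm_num]; simp]
      exact Real.sqrt_lt_sqrt hq.le hq4'
    have h := line_sum (m := m) (k := k) hW hc hd ha (x := √q / 2) (s := √(1 - q / 4))
      (by linarith) (by positivity) (Real.sqrt_nonneg _) (by
        rw [div_pow, Real.sq_sqrt hq.le, Real.sq_sqrt (by linarith)]; ring)
    rw [show 2 * (√q / 2) = √q by ring] at h
    have hZ1 : S √q m k c d (fun _ => 1) = ∑ ω ∈ (blk m k c d).powerset, wt q m k c d ω := by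
      rw [← sum_wt hq]
      simp
    rw [hZ1] at h
    rw [Real.sqrt_mul (by linarith)]
    unfold mean
    simp only [sum_wt hq]
    generalize (∑ ω ∈ (blk m k c d).powerset, wt q m k c d ω) = Z at *
    rw [le_div_iff₀ hZ]
    refine le_trans (le_of_eq ?_) h
    field_simp
  · rw [show (1 : ℝ) - 4 / 4 = 0 by norm_num, mul_zero, Real.sqrt_zero, zero_mul]
    unfold mean
    apply div_nonneg _ hZ.le
    apply Finset.sum_nonneg
    intro ω _
    rw [wt_eq hq]
    positivity

/-- **Free boundary condition, `q ≤ 1`: connections of the corner to the far sides.** -/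
theorem corner (hW : S_WIND) {q : ℝ} (hq : 0 < q) (hq1 : q ≤ 1) :
    2 / ((m : ℝ) + k + 2) ≤ mean q m k 0 0 (far m k 0 0) := by
  classical
  have hZ := Z_pos (m := m) (k := k) (c := 0) (d := 0) hq
  obtain ⟨h1, h2⟩ := sum_rules (m := m) (k := k) hW hq (Nat.zero_le m) (Nat.zero_le k)
  have hsq : √q ≤ 1 := by
    rw [Real.sqrt_le_one]
    exact hq1
  have hnn : ∀ X : Finset Edg → ℕ, 0 ≤ mean q m k 0 0 X := by
    intro X
    unfold mean
    apply div_nonneg _ hZ.le
    apply Finset.sum_nonneg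
    intro ω _
    rw [wt_eq hq]
    positivity
  have h3 : 2 ≤ mean q m k 0 0 (rgt m k 0 0) + mean q m k 0 0 (upp m k 0 0) := by
    have a1 := hnn (alft m k 0 0)
    have a2 := hnn (alow m k 0 0)
    have a3 := mul_nonneg (sub_nonneg.mpr hsq) (hnn (lft k 0 0))
    have a4 := mul_nonneg (sub_nonneg.mpr hsq) (hnn (low m 0 0))
    linarith
  have h4 : mean q m k 0 0 (rgt m k 0 0) + mean q m k 0 0 (upp m k 0 0) ≤
      ((m : ℝ) + k + 2) * mean q m k 0 0 (far m k 0 0) := by
    unfold mean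
    rw [← add_div, ← Finset.sum_add_distrib, ← mul_div_assoc, Finset.mul_sum]
    apply div_le_div_of_nonneg_right _ hZ.le
    apply Finset.sum_le_sum
    intro ω _
    have hw : 0 ≤ wt q m k 0 0 ω := by rw [wt_eq hq]; positivity
    have h5 : ((rgt m k 0 0 ω : ℕ) : ℝ) + (upp m k 0 0 ω : ℕ) ≤
        ((m : ℝ) + k + 2) * (far m k 0 0 ω : ℕ) := by
      unfold far
      split_ifs with hf
      · have b1 : rgt m k 0 0 ω ≤ k + 1 := by
          unfold rgt
          refine (Finset.card_filter_le _ _).trans ?_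
          simp
        have b2 : upp m k 0 0 ω ≤ m + 1 := by
          unfold upp
          refine (Finset.card_filter_le _ _).trans ?_
          simp
        have b3 : (rgt m k 0 0 ω : ℝ) ≤ k + 1 := by exact_mod_cast b1
        have b4 : (upp m k 0 0 ω : ℝ) ≤ m + 1 := by exact_mod_cast b2
        push_cast
        linarith
      · have b1 : rgt m k 0 0 ω = 0 := by
          unfold rgt
          rw [Finset.card_eq_zero, Finset.filter_eq_empty_iff]
          intro y hy hr
          rw [Finset.mem_Icc] at hy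
          exact hf ⟨(m, y), mem_vts.mpr ⟨by simp, by simp, hy.1, hy.2⟩, Or.inl rfl, hr⟩
        have b2 : upp m k 0 0 ω = 0 := by
          unfold upp
          rw [Finset.card_eq_zero, Finset.filter_eq_empty_iff]
          intro x hx hr
          rw [Finset.mem_Icc] at hx
          exact hf ⟨(x, k), mem_vts.mpr ⟨hx.1, hx.2, by simp, by simp⟩, Or.inr rfl, hr⟩
        rw [b1, b2]
        simp
    have h6 := mul_le_mul_of_nonneg_left h5 hw
    calc wt q m k 0 0 ω * (rgt m k 0 0 ω : ℝ) + wt q m k 0 0 ω * (upp m k 0 0 ω : ℝ)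
        = wt q m k 0 0 ω * ((rgt m k 0 0 ω : ℝ) + (upp m k 0 0 ω : ℝ)) := by ring
      _ ≤ _ := h6
      _ = _ := by ring
  rw [div_le_iff₀ (by positivity)]
  calc (2 : ℝ) ≤ _ := h3.trans h4
    _ = _ := by ring

end Pool.Agent.Q294.SR
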