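import Pool.Agent.Q294.SR.Sum

/-!
The sum rules.
-/

set_option autoImplicit false

namespace Pool.Agent.Q294.SR

open H974 Pool.Agent.Q297.FKL

variable {m k c d : ℕ} {K : Type*} [Field K]

/-! ### counts -/

section counts

variable {ω : Finset Edg}

open Classical in
theorem cnt_R (H : Cf m k c d (opn c d ω)) :
    ∑ g ∈ RS m k, (if PR m c d (opn c d ω) g then (1 : K) else 0) = (rgt m k c d ω : K) := by
  unfold rgt
  apply cnt (φ := fun y : ℤ => (((m : ℤ), y), .se))
  · intro y y' h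
    simpa using h
  · intro y hy hq
    rw [Finset.mem_Icc] at hy
    refine ⟨mem_RS.mpr ⟨by simp, by simp, hy.1, hy.2⟩, rfl, rfl, (H.on_right y).mpr hq⟩
  · rintro ⟨⟨x, y⟩, s⟩ hg ⟨h1, h2, h3⟩
    rw [mem_RS] at hg
    simp only at h1 h2
    subst h1
    subst h2
    exact ⟨y, Finset.mem_Icc.mpr ⟨hg.2.2.1, hg.2.2.2⟩, (H.on_right y).mp h3, rfl⟩

open Classical in
theorem cnt_T (H : Cf m k c d (opn c d ω)) :
    ∑ g ∈ RS m k, (if PT k c d (opn c d ω) g then (1 : K) else 0) = (upp m k c d ω : K) := by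
  unfold upp
  apply cnt (φ := fun x : ℤ => ((x, (k : ℤ)), .ne))
  · intro y y' h
    simpa using h
  · intro x hx hq
    rw [Finset.mem_Icc] at hx
    refine ⟨mem_RS.mpr ⟨hx.1, hx.2, by simp, by simp⟩, rfl, rfl, (H.on_top x).mpr hq⟩
  · rintro ⟨⟨x, y⟩, s⟩ hg ⟨h1, h2, h3⟩
    rw [mem_RS] at hg
    simp only at h1 h2
    subst h1
    subst h2
    exact ⟨x, Finset.mem_Icc.mpr ⟨hg.1, hg.2.1⟩, (H.on_top x).mp h3, rfl⟩

open Classical in
theorem cnt_L (H : Cf m k c d (opn c d ω)) :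
    ∑ g ∈ RS m k, (if PL c d (opn c d ω) g then (1 : K) else 0) = (lft k c d ω : K) := by
  unfold lft
  apply cnt (φ := fun y : ℤ => ((0, y), .nw))
  · intro y y' h
    simpa using h
  · intro y hy hq
    rw [Finset.mem_Ioc] at hy
    refine ⟨mem_RS.mpr ⟨by simp, by simp, by simp only; omega, hy.2⟩, rfl, rfl, hy.1,
      (H.on_left hy.1).mpr hq⟩
  · rintro ⟨⟨x, y⟩, s⟩ hg ⟨h1, h2, h3, h4⟩
    rw [mem_RS] at hg
    simp only at h1 h2 h3
    subst h1
    subst h2
    exact ⟨y, Finset.mem_Ioc.mpr ⟨h3, hg.2.2.2⟩, (H.on_left h3).mp h4, rfl⟩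

open Classical in
theorem cnt_B (H : Cf m k c d (opn c d ω)) :
    ∑ g ∈ RS m k, (if PB c d (opn c d ω) g then (1 : K) else 0) = (low m c d ω : K) := by
  unfold low
  apply cnt (φ := fun x : ℤ => ((x, 0), .sw))
  · intro y y' h
    simpa using h
  · intro x hx hq
    rw [Finset.mem_Ioc] at hx
    refine ⟨mem_RS.mpr ⟨by simp only; omega, hx.2, by simp, by simp⟩, rfl, rfl, hx.1,
      (H.on_low hx.1).mpr hq⟩
  · rintro ⟨⟨x, y⟩, s⟩ hg ⟨h1, h2, h3, h4⟩
    rw [mem_RS] at hg
    simp only at h1 h2 h3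
    subst h1
    subst h2
    exact ⟨x, Finset.mem_Ioc.mpr ⟨h3, hg.2.1⟩, (H.on_low h3).mp h4, rfl⟩

open Classical in
theorem cnt_b (H : Cf m k c d (opn c d ω)) :
    ∑ g ∈ RS m k, (if Pb c d (opn c d ω) g then (1 : K) else 0) = (alow m k c d ω : K) := by
  have hc := H.hc
  unfold alow
  apply cnt (φ := fun x : ℤ => ((x + 1, 0), .nw))
  · intro y y' h
    simpa using h
  · intro x hx hq
    rw [Finset.mem_Ico] at hx
    refine ⟨mem_RS.mpr ⟨by simp only; omega, by simp only; omega, by simp, by simp⟩, rfl, rfl,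
      by simp only; omega, by simp only; omega, (H.on_alow hx.1 hx.2).mpr hq⟩
  · rintro ⟨⟨x, y⟩, s⟩ hg ⟨h1, h2, h3, h4, h5⟩
    simp only at h1 h2 h3 h4
    subst h1
    subst h2
    obtain ⟨x', rfl⟩ : ∃ x', x = x' + 1 := ⟨x - 1, by ring⟩
    exact ⟨x', Finset.mem_Ico.mpr ⟨by omega, by omega⟩,
      (H.on_alow (by omega) (by omega)).mp h5, rfl⟩

open Classical in
theorem cnt_l (H : Cf m k c d (opn c d ω)) :
    ∑ g ∈ RS m k, (if Pl c d (opn c d ω) g then (1 : K) else 0) = (alft m k c d ω : K) := by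
  have hd := H.hd
  unfold alft
  apply cnt (φ := fun y : ℤ => ((0, y), .ne))
  · intro y y' h
    simpa using h
  · intro y hy hq
    rw [Finset.mem_Ico] at hy
    refine ⟨mem_RS.mpr ⟨by simp, by simp, hy.1, by simp only; omega⟩, rfl, rfl, hy.2,
      (H.on_alft hy.1 hy.2).mpr hq⟩
  · rintro ⟨⟨x, y⟩, s⟩ hg ⟨h1, h2, h3, h4⟩
    rw [mem_RS] at hg
    simp only at h1 h2 h3
    subst h1
    subst h2
    exact ⟨y, Finset.mem_Ico.mpr ⟨hg.2.2.1, h3⟩, (H.on_alft hg.2.2.1 h3).mp h4, rfl⟩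

end counts

/-! ### the random edges -/

/-- the state of an edge -/
def st1 (e : Edg) : St := ((e.1, e.2.1), if e.2.2 then .se else .ne)

theorem ed_st1 (e : Edg) : ed (st1 e) = e := by
  obtain ⟨x, y, b⟩ := e
  cases b <;> rfl

theorem not_out_of_blk {g : St} (h : ed g ∈ blk m k c d) : ¬ Out c d g := by
  rw [mem_blk] at h
  obtain ⟨h1, h2⟩ := h
  obtain ⟨⟨x, y⟩, s⟩ := g
  cases s
  · rintro ⟨h3, h4, h5⟩
    simp only at h3 h4 h5
    apply h2
    rw [show ed ((x, y), .se) = (x, y, true) from rfl, mem_arc]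
    exact Or.inl ⟨rfl, h3, h4, h5⟩
  · exact fun h => h
  · rintro ⟨h3, h4, h5⟩
    simp only at h3
    rw [show ed ((x, y), .nw) = (x - 1, y, true) from rfl, mem_RE_true] at h1
    omega
  · intro h3
    rw [show ed ((x, y), .sw) = (x, y - 1, false) from rfl, mem_RE_false] at h1
    rw [show ed ((x, y), .sw) = (x, y - 1, false) from rfl, mem_arc] at h2
    rcases h3 with h3 | h3 <;> simp only at h3
    · apply h2
      right
      refine ⟨rfl, h3.1, by omega, by omega⟩
    · omega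

theorem inR_of_RE {g : St} (h : ed g ∈ RE 0 m 0 k) : InR m k g.1 := by
  obtain ⟨⟨x, y⟩, s⟩ := g
  cases s
  · rw [show ed ((x, y), .se) = (x, y, true) from rfl, mem_RE_true] at h
    simp only [InR]; omega
  · rw [show ed ((x, y), .ne) = (x, y, false) from rfl, mem_RE_false] at h
    simp only [InR]; omega
  · rw [show ed ((x, y), .nw) = (x - 1, y, true) from rfl, mem_RE_true] at h
    simp only [InR]; omega
  · rw [show ed ((x, y), .sw) = (x, y - 1, false) from rfl, mem_RE_false] at h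
    simp only [InR]; omega

/-- sum over the states of the random edges -/
theorem sum_blk {E : Finset Edg} (hE : E ⊆ blk m k c d) (f : St → K) :
    ∑ g ∈ (RS m k).filter (fun g => ed g ∈ E), f g =
      ∑ e ∈ E, (f (st1 e) + f (pt (st1 e))) := by
  classical
  rw [← Finset.sum_fiberwise_of_maps_to (s := (RS m k).filter (fun g => ed g ∈ E))
    (t := E) (g := ed) (fun g hg => (Finset.mem_filter.mp hg).2)]
  apply Finset.sum_congr rfl
  intro e he
  have hset : ((RS m k).filter (fun g => ed g ∈ E)).filter (fun g => ed g = e) =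
      {st1 e, pt (st1 e)} := by
    ext g
    simp only [Finset.mem_filter, Finset.mem_insert, Finset.mem_singleton]
    constructor
    · rintro ⟨_, h⟩
      apply ed_eq
      rw [h, ed_st1]
    · intro h
      have h1 : ed g = e := by
        rcases h with rfl | rfl
        · exact ed_st1 e
        · rw [ed_pt, ed_st1]
      rw [h1]
      refine ⟨⟨mem_RS.mpr (inR_of_RE ?_), he⟩, rfl⟩
      rw [h1]
      exact (mem_blk.mp (hE he)).1
  rw [hset, Finset.sum_pair (pt_ne _).symm]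

theorem cls_eq (ω : Finset Edg) : cls m k c d ω = ncl (vts m k) (opn c d ω) := by
  unfold cls ncl
  congr 1
  ext C
  simp only [Set.mem_ofPred_eq, Set.mem_image, Finset.mem_coe, cl]
  constructor
  · rintro ⟨v, hv, rfl⟩; exact ⟨v, hv, rfl⟩
  · rintro ⟨v, hv, rfl⟩; exact ⟨v, hv, rfl⟩

/-- the weight as a power of `r = √q` -/
noncomputable def ex (m k c d : ℕ) (ω : Finset Edg) : ℕ := ω.card + 2 * cls m k c d ω

theorem mem_vts {v : Vtx} : v ∈ vts m k ↔ InR m k v := by
  unfold vts InR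
  simp only [Finset.mem_product, Finset.mem_Icc]
  tauto

/-- the local relation with the weights -/
theorem rel {z : K} (hz : z ≠ 0) (hW : S_WIND) (hc : c ≤ m) (hd : d ≤ k) {ω : Finset Edg}
    {e : Edg} (he : e ∈ blk m k c d) (hω : ω ⊆ blk m k c d) (heω : e ∉ ω) :
    (z + z⁻¹) ^ ex m k c d ω *
      (F z (opn c d ω) c d (st1 e) + F z (opn c d ω) c d (pt (st1 e))) +
    (z + z⁻¹) ^ ex m k c d (insert e ω) *
      (F z (opn c d (insert e ω)) c d (st1 e) +
        F z (opn c d (insert e ω)) c d (pt (st1 e))) = 0 := by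
  classical
  have H := cf_opn hc hd hω
  have H' := cf_opn (ω := insert e ω) hc hd (by
    intro f hf
    rcases Finset.mem_insert.mp hf with rfl | hf
    · exact he
    · exact hω hf)
  have hins : opn c d (insert e ω) = insert e (opn c d ω) := by
    unfold opn
    rw [Finset.coe_insert, Set.insert_union]
  have ho : e ∉ opn c d ω := by
    rintro (h | h)
    · exact heω h
    · exact (mem_blk.mp he).2 h
  have hdiff : Diff (opn c d ω) (opn c d (insert e ω)) (st1 e) := by
    rw [hins]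
    constructor
    · intro f hf
      rw [ed_st1] at hf
      simp [hf]
    · rw [ed_st1]
      simp [ho]
  have ho' : ed (st1 e) ∉ opn c d ω := by rw [ed_st1]; exact ho
  have hb1 : ed (st1 e) ∈ blk m k c d := by rw [ed_st1]; exact he
  have hb2 : ed (pt (st1 e)) ∈ blk m k c d := by rw [ed_pt]; exact hb1
  have hRE := (mem_blk.mp he).1
  have hmv : Reach (opn c d ω) (st1 e).1 (mv (st1 e)) ↔
      Reach (opn c d ω) (src e) (tgt e) := by
    obtain ⟨x, y, b⟩ := e
    cases b <;> rfl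
  have hs : src e ∈ vts m k ∧ tgt e ∈ vts m k := by
    have h := H'.inR (g := st1 e) (by rw [ed_st1, hins]; exact Set.mem_insert _ _)
    rw [mem_vts, mem_vts]
    obtain ⟨x, y, b⟩ := e
    cases b <;> exact h
  have hcard : (insert e ω).card = ω.card + 1 := Finset.card_insert_of_notMem heω
  rcases pair_all hz hW H H' hdiff ho' (not_out_of_blk hb1) (not_out_of_blk hb2) with
    ⟨h1, h2⟩ | ⟨h1, h2⟩
  · have hcl : cls m k c d (insert e ω) = cls m k c d ω := by
      rw [cls_eq, cls_eq, hins]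
      exact ncl_same _ (hmv.mp h1)
    have hex : ex m k c d (insert e ω) = ex m k c d ω + 1 := by
      unfold ex
      rw [hcl, hcard]
      omega
    rw [hex, pow_succ]
    linear_combination (z + z⁻¹) ^ ex m k c d ω * h2
  · have hcl : cls m k c d ω = cls m k c d (insert e ω) + 1 := by
      rw [cls_eq, cls_eq, hins]
      exact ncl_merge (fun h => h1 (hmv.mpr h)) hs.1 hs.2
    have hex : ex m k c d ω = ex m k c d (insert e ω) + 1 := by
      unfold ex
      rw [hcl, hcard]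
      omega
    rw [hex, pow_succ]
    linear_combination (z + z⁻¹) ^ ex m k c d (insert e ω) * h2

/-- The random edges do not contribute. -/
theorem blk_zero {z : K} (hz : z ≠ 0) (hW : S_WIND) (hc : c ≤ m) (hd : d ≤ k) {E : Finset Edg}
    (hE : E ⊆ blk m k c d) :
    ∑ ω ∈ (blk m k c d).powerset, (z + z⁻¹) ^ ex m k c d ω *
      ∑ g ∈ (RS m k).filter (fun g => ed g ∈ E), F z (opn c d ω) c d g = 0 := by
  classical
  simp only [sum_blk hE, Finset.mul_sum]
  rw [Finset.sum_comm]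
  apply Finset.sum_eq_zero
  intro e he
  have hb : blk m k c d = insert e ((blk m k c d).erase e) := (Finset.insert_erase (hE he)).symm
  have hsum : ∑ ω ∈ (insert e ((blk m k c d).erase e)).powerset, (z + z⁻¹) ^ ex m k c d ω *
      (F z (opn c d ω) c d (st1 e) + F z (opn c d ω) c d (pt (st1 e))) = 0 := by
    rw [Finset.sum_powerset_insert (Finset.notMem_erase _ _), ← Finset.sum_add_distrib]
    apply Finset.sum_eq_zero
    intro ω hω
    rw [Finset.mem_powerset] at hω
    exact rel hz hW hc hd (hE he) (hω.trans (Finset.erase_subset _ _))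
      (fun h => Finset.notMem_erase _ _ (hω h))
  rw [← hb] at hsum
  exact hsum

/-- The weighted winding sum. -/
theorem wsum {z : K} (hz : z ≠ 0) (hW : S_WIND) (hc : c ≤ m) (hd : d ≤ k) :
    ∑ ω ∈ (blk m k c d).powerset, (z + z⁻¹) ^ ex m k c d ω *
      ((z ^ (-2 : ℤ) - z ^ (-1 : ℤ)) * (rgt m k c d ω : K) +
      (z ^ (-1 : ℤ) - 1) * (upp m k c d ω : K) +
      (1 - z) * (lft k c d ω : K) +
      (z ^ (-3 : ℤ) - z ^ (-2 : ℤ)) * (low m c d ω : K) +
      (1 - z ^ (-1 : ℤ)) * (alow m k c d ω : K) +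
      (z ^ (-1 : ℤ) - z ^ (-2 : ℤ)) * (alft m k c d ω : K) - (z ^ (-2 : ℤ) - 1)) = 0 := by
  classical
  have h0 := blk_zero (m := m) (k := k) hz hW hc hd (subset_refl _)
  have key : ∀ ω ∈ (blk m k c d).powerset,
      ((z ^ (-2 : ℤ) - z ^ (-1 : ℤ)) * (rgt m k c d ω : K) +
      (z ^ (-1 : ℤ) - 1) * (upp m k c d ω : K) +
      (1 - z) * (lft k c d ω : K) +
      (z ^ (-3 : ℤ) - z ^ (-2 : ℤ)) * (low m c d ω : K) +
      (1 - z ^ (-1 : ℤ)) * (alow m k c d ω : K) +
      (z ^ (-1 : ℤ) - z ^ (-2 : ℤ)) * (alft m k c d ω : K) - (z ^ (-2 : ℤ) - 1)) =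
      - ∑ g ∈ (RS m k).filter (fun g => ed g ∈ blk m k c d), F z (opn c d ω) c d g := by
    intro ω hω
    have H := cf_opn hc hd (Finset.mem_powerset.mp hω)
    have h1 := H.total hW z
    have h2 : ∑ g ∈ RS m k, (if ed g ∈ blk m k c d then 0 else F z (opn c d ω) c d g) +
        ∑ g ∈ (RS m k).filter (fun g => ed g ∈ blk m k c d), F z (opn c d ω) c d g =
        ∑ g ∈ RS m k, F z (opn c d ω) c d g := by
      rw [Finset.sum_filter, ← Finset.sum_add_distrib]
      apply Finset.sum_congr rfl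
      intro g _
      split_ifs <;> ring
    have h3 : ∑ g ∈ RS m k, (if ed g ∈ blk m k c d then 0 else F z (opn c d ω) c d g) =
        (z ^ (-2 : ℤ) - z ^ (-1 : ℤ)) * (rgt m k c d ω : K) +
      (z ^ (-1 : ℤ) - 1) * (upp m k c d ω : K) +
      (1 - z) * (lft k c d ω : K) +
      (z ^ (-3 : ℤ) - z ^ (-2 : ℤ)) * (low m c d ω : K) +
      (1 - z ^ (-1 : ℤ)) * (alow m k c d ω : K) +
      (z ^ (-1 : ℤ) - z ^ (-2 : ℤ)) * (alft m k c d ω : K) := by
      rw [← cnt_R H, ← cnt_T H, ← cnt_L H, ← cnt_B H, ← cnt_b H, ← cnt_l H]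
      simp only [Finset.mul_sum]
      rw [← Finset.sum_add_distrib, ← Finset.sum_add_distrib, ← Finset.sum_add_distrib,
        ← Finset.sum_add_distrib, ← Finset.sum_add_distrib]
      apply Finset.sum_congr rfl
      intro g hg
      have := H.bdry hW z hg
      rw [← this]
    rw [← h3]
    linear_combination h2 + h1
  have h4 : ∑ ω ∈ (blk m k c d).powerset, (z + z⁻¹) ^ ex m k c d ω *
      ((z ^ (-2 : ℤ) - z ^ (-1 : ℤ)) * (rgt m k c d ω : K) +
      (z ^ (-1 : ℤ) - 1) * (upp m k c d ω : K) +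
      (1 - z) * (lft k c d ω : K) +
      (z ^ (-3 : ℤ) - z ^ (-2 : ℤ)) * (low m c d ω : K) +
      (1 - z ^ (-1 : ℤ)) * (alow m k c d ω : K) +
      (z ^ (-1 : ℤ) - z ^ (-2 : ℤ)) * (alft m k c d ω : K) - (z ^ (-2 : ℤ) - 1)) =
      - ∑ ω ∈ (blk m k c d).powerset, (z + z⁻¹) ^ ex m k c d ω *
      ∑ g ∈ (RS m k).filter (fun g => ed g ∈ blk m k c d), F z (opn c d ω) c d g := by
    rw [← Finset.sum_neg_distrib]
    apply Finset.sum_congr rfl
    intro ω hω
    rw [key ω hω]
    ring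
  rw [h4, h0, neg_zero]

end Pool.Agent.Q294.SR
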