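import Pool.Agent.Q294.SR.St
import Pool.Agent.H477R3.Turn

/-!
Project SR (helper294): winding numbers of simple walks on the corners of the vertices of a
rectangle. Statements of the jobs TURN and WIND.
-/

set_option autoImplicit false

namespace Pool.Agent.Q294.SR

open H974 Pool.Agent.H477R3.Turn Complex

/-- A walk `g 0, ..., g n` of distinct states; the step `j` is a left turn (`e j = 1`) around the
vertex or a right turn (`e j = -1`) along the edge to the next vertex. -/
def Walk (g : ℕ → St) (e : ℕ → ℤ) (n : ℕ) : Prop :=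
  (∀ i j, i ≤ n → j ≤ n → g i = g j → i = j) ∧
  ∀ j, j < n → (g (j + 1) = stc (g j) ∧ e j = 1) ∨ (g (j + 1) = sto (g j) ∧ e j = -1)

/-- The position of a state: twice the position of the corner, shifted, so that all positions are
Gaussian integers: `2 v + (1 or 0) + (1 or 0) i` with `1` in the first place for the corners in the
east and in the second place for the corners in the north. -/
noncomputable def pos : St → ℂ
  | (v, .se) => ⟨2 * (v.1 : ℝ) + 1, 2 * (v.2 : ℝ)⟩
  | (v, .ne) => ⟨2 * (v.1 : ℝ) + 1, 2 * (v.2 : ℝ) + 1⟩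
  | (v, .nw) => ⟨2 * (v.1 : ℝ), 2 * (v.2 : ℝ) + 1⟩
  | (v, .sw) => ⟨2 * (v.1 : ℝ), 2 * (v.2 : ℝ)⟩

/-- The diagonal direction of the loop at a corner. -/
noncomputable def dg : Cor → ℂ
  | .se => ⟨1, 1⟩
  | .ne => ⟨-1, 1⟩
  | .nw => ⟨-1, -1⟩
  | .sw => ⟨1, -1⟩

/-- The polyline `y 0, ..., y (n + 2)` of a walk: the positions of `g 0, ..., g n` are
`y 1, ..., y (n + 1)`, and a small diagonal piece is added at both ends. -/
noncomputable def poly (g : ℕ → St) (n : ℕ) (k : ℕ) : ℂ :=
  if k = 0 then pos (g 0) - (1 / 8 : ℝ) * dg (g 0).2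
  else if k = n + 2 then pos (g n) + (1 / 4 : ℝ) * dg (g n).2
  else pos (g (k - 1))

/-- JOB TURN. For a walk with at least one step, Hopf's formula (`Turn.hopf`, applied with its `n`
equal to `n + 1` here and `y = poly g n`):
`(π / 2) * ∑ e = sweep (y 0) y 1 (n + 2) + sweep (y (n + 2)) y 0 (n + 1)`.

Proof. (1) The steps of the polyline between the positions are unit steps of the lattice `ℤ[i]`:
for the corners se, ne, nw, sw the step `stc` has the direction `i, -1, -i, 1` and the step `sto` the
direction `1, i, -1, -i`. The directions `dg` are `(1+i), (-1+i), (-1-i), (1-i)`. (2) The turn of the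
polyline at an inner position `pos (g j)`, `1 ≤ j < n`, is `(π / 4) (e (j-1) + e j)`: after a step
`stc` to the corner `s` the incoming direction is `dg s` turned by `-π/4` and after a step `sto` it is
`dg s` turned by `π/4`; the outgoing direction is `dg s` turned by `π/4` for `stc` and by `-π/4` for
`sto`. So the turn is `π/2`, `0`, `0`, `-π/2`. At `pos (g 0)` and `pos (g n)` the turns are
`(π/4) e 0` and `(π/4) e (n-1)`. The sum of all turns is `(π/2) ∑ e`. All turns are `≠ π`.
(3) Disjointness: two unit segments of the lattice `ℤ[i]` without a common end are disjoint (the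
positions are distinct Gaussian integers since `pos` is injective); the small diagonal pieces meet
the lines `re ∈ ℤ` and `im ∈ ℤ` only in `pos (g 0)`, `pos (g n)`, and they do not meet each other, as
`pos (g 0) ≠ pos (g n)` have distance at least one in one coordinate. -/
def S_TURN : Prop := ∀ (g : ℕ → St) (e : ℕ → ℤ) (n : ℕ), 1 ≤ n → Walk g e n →
  Real.pi / 2 * ((∑ j ∈ Finset.range n, e j : ℤ) : ℝ) =
    sweep (poly g n 0) (poly g n) 1 (n + 2) + sweep (poly g n (n + 2)) (poly g n) 0 (n + 1)

/-- JOB WIND (from TURN). A walk in the half plane `x ≥ 0` which ends at the corner nw of the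
vertex `(0, d)` and starts at the lower side, the right side, the upper side, or the left side above
or below the end.

Proof from TURN. The case `n = 0` is clear (`g 0 = g n` has the corner nw). Let `n ≥ 1`, `y = poly g n`,
`Y = y (n + 2) = pos (g n) - (1 + i) / 4`, `w = y 0 - Y`. All `y k`, `k ≤ n + 1`, are to the right of
`Y` (real part: `pos` has real part `≥ 0`, `re Y = -1/4`, and `re (y 0) ≥ -1/8`). If
`re ((x k - q) / u) > 0` for all `k` between `i` and `j` then
`sweep q x i j = arg ((x j - q) / u) - arg ((x i - q) / u)` (induction with `Turn.arg_div_half`,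
`Turn.sweep_succ`). Hence the second sweep is `arg ((1 + i) / 4) - arg w = π/4 - arg w`.
First sweep, `q = y 0`, `y 1 - y 0 = (1/8) dg (corner of g 0)`.
Case se (lower side, `im (y 0) = -1/8 <` all the others, `y (n+2)` has imaginary part `≥ 3/4`): take
`u = i`: `arg (-w / i) - arg ((1 + i) / 8 / i) = arg (i w) + π/4`, and `arg (i w) = arg w + π/2` since
`re w > 0`, `im w < 0`. Total `π`.
Case ne (right side): `u = -1`: `arg w - arg ((-1 + i) / 8 / (-1)) = arg w + π/4`. Total `π/2`.
Case nw (upper side): `u = -i`: `arg (-w / (-i)) - arg ((-1 - i) / 8 / (-i)) = arg (-i w) + π/4` and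
`arg (-i w) = arg w - π/2` since `im w > 0`, `re w > 0`. Total `0`.
Case sw (left side): the `y k`, `1 ≤ k ≤ n + 1`, are to the right of `y 0`; with `a = y (n+1) - y 0`
the sweep is `arg a - arg ((1 - i) / 8) + ang (y 0) (y (n+1)) (y (n+2))`. If `d < y` both points are
below `y 0`: with `u = -i`: `ang = arg (-w / (-i)) - arg (a / (-i)) = (arg w - π/2) - (arg a + π/2)`
(`w` in the first quadrant, `a` in the fourth). Total `-π/2`. If `y ≤ d` both points are above `y 0`
(also if `y = d`: then `im (y 0) = 2 d + 1/8` and `im Y = 2 d + 3/4`): with `u = i`: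
`ang = arg (-w / i) - arg (a / i) = (arg w + π/2) - (arg a - π/2)`. Total `3π/2`. -/
def S_WIND : Prop := ∀ (g : ℕ → St) (e : ℕ → ℤ) (n : ℕ) (d : ℤ), Walk g e n →
  (∀ j, j ≤ n → 0 ≤ (g j).1.1) → g n = ((0, d), .nw) →
  (∀ x, g 0 = ((x, 0), .se) → (∀ j, j ≤ n → 0 ≤ (g j).1.2) → ∑ j ∈ Finset.range n, e j = 2) ∧
  (∀ x y, g 0 = ((x, y), .ne) → (∀ j, j ≤ n → (g j).1.1 ≤ x) → ∑ j ∈ Finset.range n, e j = 1) ∧
  (∀ x y, g 0 = ((x, y), .nw) → (∀ j, j ≤ n → (g j).1.2 ≤ y) → ∑ j ∈ Finset.range n, e j = 0) ∧
  (∀ y, g 0 = ((0, y), .sw) → d < y → ∑ j ∈ Finset.range n, e j = -1) ∧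
  (∀ y, g 0 = ((0, y), .sw) → y ≤ d → ∑ j ∈ Finset.range n, e j = 3)

end Pool.Agent.Q294.SR
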