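import Pool.Agent.Q294.SR.Bd
import Pool.Agent.Q294.SR.Stm

/-!
The winding numbers of the loop at the boundary.
-/

set_option autoImplicit false

namespace Pool.Agent.Q294.SR

open H974

variable {m k c d : ℕ} {O : Set Edg}

/-- The winding from `g` to the last state. -/
noncomputable def N (O : Set Edg) (d : ℕ) (g : St) : ℤ := nn (nxt O) (eps O) (bb d) g

theorem step_or (O : Set Edg) (g : St) :
    (nxt O g = stc g ∧ eps O g = 1) ∨ (nxt O g = sto g ∧ eps O g = -1) := by
  by_cases h : ed g ∈ O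
  · exact Or.inr ⟨nxt_open h, eps_open h⟩
  · exact Or.inl ⟨nxt_closed h, eps_closed h⟩

theorem walk_of {b g : St} (h : Hit (nxt O) b g) :
    Walk (fun j => (nxt O)^[j] g) (fun j => eps O ((nxt O)^[j] g)) (tm (nxt O) b g) := by
  refine ⟨fun i j hi hj he => walk_inj (nxt_inj O) h hi hj he, fun j _ => ?_⟩
  simp only [Function.iterate_succ_apply']
  exact step_or O _

/-- The walk with one more step at the beginning. -/
theorem walk_cons {b g g' : St} (h : Hit (nxt O) b g) (hg : stc g' = g)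
    (hne : ∀ j, j ≤ tm (nxt O) b g → (nxt O)^[j] g ≠ g') :
    Walk (fun j => if j = 0 then g' else (nxt O)^[j - 1] g)
      (fun j => if j = 0 then 1 else eps O ((nxt O)^[j - 1] g)) (tm (nxt O) b g + 1) := by
  constructor
  · intro i j hi hj he
    simp only at he
    by_cases h1 : i = 0 <;> by_cases h2 : j = 0
    · omega
    · rw [if_pos h1, if_neg h2] at he
      exact absurd he.symm (hne _ (by omega))
    · rw [if_neg h1, if_pos h2] at he
      exact absurd he (hne _ (by omega))
    · rw [if_neg h1, if_neg h2] at he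
      have := walk_inj (nxt_inj O) h (by omega) (by omega) he
      omega
  · intro j hj
    by_cases h1 : j = 0
    · subst h1
      left
      simp [hg]
    · simp only [Nat.add_eq_zero_iff, h1, false_and, if_false]
      rw [show j + 1 - 1 = (j - 1) + 1 by omega, Function.iterate_succ_apply']
      exact step_or O _

theorem sum_cons {b g : St} :
    ∑ j ∈ Finset.range (tm (nxt O) b g + 1),
      (if j = 0 then (1 : ℤ) else eps O ((nxt O)^[j - 1] g)) = 1 + nn (nxt O) (eps O) b g := by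
  rw [Finset.sum_range_succ']
  simp only [if_true, Nat.add_eq_zero_iff, one_ne_zero, and_false, if_false, Nat.add_sub_cancel]
  unfold nn
  ring

theorem Cf.iter_R (H : Cf m k c d O) {g : St} (h : Hit (nxt O) (bb d) g) (j : ℕ) :
    InR m k ((nxt O)^[j] g).1 := (H.iter_inR g j).mpr (H.hit_inR h)

theorem Cf.N_se (H : Cf m k c d O) (hW : S_WIND) {x : ℤ}
    (h : Hit (nxt O) (bb d) ((x, 0), .se)) : N O d ((x, 0), .se) = 2 :=
  (hW _ _ _ d (walk_of h) (fun j _ => (H.iter_R h j).1) (tm_spec h)).1 x rfl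
    (fun j _ => (H.iter_R h j).2.2.1)

theorem Cf.N_ne (H : Cf m k c d O) (hW : S_WIND) {y : ℤ}
    (h : Hit (nxt O) (bb d) (((m : ℤ), y), .ne)) : N O d (((m : ℤ), y), .ne) = 1 :=
  (hW _ _ _ d (walk_of h) (fun j _ => (H.iter_R h j).1) (tm_spec h)).2.1 m y rfl
    (fun j _ => (H.iter_R h j).2.1)

theorem Cf.N_nw (H : Cf m k c d O) (hW : S_WIND) {x : ℤ}
    (h : Hit (nxt O) (bb d) ((x, (k : ℤ)), .nw)) : N O d ((x, (k : ℤ)), .nw) = 0 :=
  (hW _ _ _ d (walk_of h) (fun j _ => (H.iter_R h j).1) (tm_spec h)).2.2.1 x k rfl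
    (fun j _ => (H.iter_R h j).2.2.2)

theorem Cf.N_sw (H : Cf m k c d O) (hW : S_WIND) {y : ℤ} (hy : d < y)
    (h : Hit (nxt O) (bb d) ((0, y), .sw)) : N O d ((0, y), .sw) = -1 :=
  (hW _ _ _ d (walk_of h) (fun j _ => (H.iter_R h j).1) (tm_spec h)).2.2.2.1 y rfl hy

/-- inside the lower part of the arc -/
theorem Cf.N_lo (H : Cf m k c d O) (hW : S_WIND) {x : ℤ} (hx : 0 ≤ x) (hxc : x < c)
    (h : OnP (nxt O) (aa c) (bb d) ((x, 0), .ne)) : N O d ((x, 0), .ne) = 1 := by
  have hh := onP_hit H.hit_aa h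
  have hout : Out c d ((x, 0), .se) := ⟨rfl, hx, hxc⟩
  have hne : ∀ j, j ≤ tm (nxt O) (bb d) ((x, 0), .ne) →
      (nxt O)^[j] ((x, 0), .ne) ≠ ((x, 0), .se) := by
    intro j hj he
    rcases Nat.lt_or_eq_of_le hj with hj' | hj'
    · obtain ⟨i, hi, hi2⟩ := h
      have h1 := tm_iter H.hit_aa hi.le
      rw [hi2] at h1
      refine H.onP_not_out ⟨j + i, by omega, ?_⟩ hout
      rw [Function.iterate_add_apply, hi2, he]
    · rw [hj', tm_spec hh] at he
      simp [bb] at he
  have := (hW _ _ _ d (walk_cons hh (g' := ((x, 0), .se)) rfl hne) ?_ ?_).1 x ?_ ?_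
  · rw [sum_cons] at this
    unfold N
    linarith
  · intro j _
    by_cases h1 : j = 0
    · simp only [if_pos h1]; exact hx
    · simp only [if_neg h1]; exact (H.iter_R hh _).1
  · simp only [Nat.add_eq_zero_iff, one_ne_zero, and_false, if_false, Nat.add_sub_cancel]
    exact tm_spec hh
  · simp
  · intro j _
    by_cases h1 : j = 0
    · simp only [if_pos h1]; exact le_rfl
    · simp only [if_neg h1]; exact (H.iter_R hh _).2.2.1

/-- inside the left part of the arc -/
theorem Cf.N_lf (H : Cf m k c d O) (hW : S_WIND) {y : ℤ} (hy : 0 ≤ y) (hyd : y ≤ d)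
    (h : OnP (nxt O) (aa c) (bb d) ((0, y), .se)) : N O d ((0, y), .se) = 2 := by
  have hh := onP_hit H.hit_aa h
  have hout : Out c d ((0, y), .sw) := Or.inl ⟨rfl, hy, hyd⟩
  have hne : ∀ j, j ≤ tm (nxt O) (bb d) ((0, y), .se) →
      (nxt O)^[j] ((0, y), .se) ≠ ((0, y), .sw) := by
    intro j hj he
    rcases Nat.lt_or_eq_of_le hj with hj' | hj'
    · obtain ⟨i, hi, hi2⟩ := h
      have h1 := tm_iter H.hit_aa hi.le
      rw [hi2] at h1
      refine H.onP_not_out ⟨j + i, by omega, ?_⟩ hout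
      rw [Function.iterate_add_apply, hi2, he]
    · rw [hj', tm_spec hh] at he
      simp [bb] at he
  have := (hW _ _ _ d (walk_cons hh (g' := ((0, y), .sw)) rfl hne) ?_ ?_).2.2.2.2 y ?_ hyd
  · rw [sum_cons] at this
    unfold N
    linarith
  · intro j _
    by_cases h1 : j = 0
    · simp only [if_pos h1]; exact le_rfl
    · simp only [if_neg h1]; exact (H.iter_R hh _).1
  · simp only [Nat.add_eq_zero_iff, one_ne_zero, and_false, if_false, Nat.add_sub_cancel]
    exact tm_spec hh
  · simp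

/-- one step of the winding -/
theorem N_step {g : St} (h : Hit (nxt O) (bb d) g) (hg : g ≠ bb d) :
    N O d g = eps O g + N O d (nxt O g) := nn_step (eps O) h hg

end Pool.Agent.Q294.SR
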