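import Pool.Agent.Q294.SR.Nv

/-!
The local relation: the contributions of an edge to the winding sum of a configuration and of the
configuration with this edge flipped.
-/

set_option autoImplicit false

namespace Pool.Agent.Q294.SR

open H974

variable {m k c d : ℕ} {O O' : Set Edg} {K : Type*} [Field K]

open Classical in
/-- The contribution of the state `g` to the winding sum. -/
noncomputable def F (z : K) (O : Set Edg) (c d : ℕ) (g : St) : K :=
  if OnP (nxt O) (aa c) (bb d) g then z ^ (-N O d g) - z ^ (-N O d (nxt O g)) else 0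

theorem F_on {z : K} {g : St} (h : OnP (nxt O) (aa c) (bb d) g) :
    F z O c d g = z ^ (-N O d g) - z ^ (-(N O d g - eps O g)) := by
  classical
  unfold F
  rw [if_pos h]
  have hh : Hit (nxt O) (bb d) (aa c) := by
    obtain ⟨j, hj, _⟩ := h
    exact Nat.nonempty_of_pos_sInf (s := {n | (nxt O)^[n] (aa c) = bb d}) (by
      have : 0 < tm (nxt O) (bb d) (aa c) := by omega
      exact this)
  have := N_step (onP_hit hh h) (onP_ne h)
  rw [this]
  congr 2
  ring

theorem F_off {z : K} {g : St} (h : ¬ OnP (nxt O) (aa c) (bb d) g) : F z O c d g = 0 := by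
  classical
  unfold F
  rw [if_neg h]

theorem F_both_aux {z : K} (hz : z ≠ 0) (s t : ℤ) (ht : t = 1 ∨ t = -1) :
    (z ^ (-s) - z ^ (-(s - t))) + (z ^ (-(s + 2 * t)) - z ^ (-(s + 2 * t - t))) +
      (z + z⁻¹) * (z ^ (-s) - z ^ (-(s + t))) = 0 := by
  have h0 : ∀ n : ℤ, z ^ (-s + n) = z ^ (-s) * z ^ n := fun n => zpow_add₀ hz _ _
  rcases ht with rfl | rfl
  · have e1 : z ^ (-(s - 1)) = z ^ (-s) * z := by
      rw [show -(s - 1) = -s + 1 by ring, h0, zpow_one]
    have e2 : z ^ (-(s + 2 * 1)) = z ^ (-s) * (z⁻¹ * z⁻¹) := by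
      rw [show -(s + 2 * 1) = -s + (-2) by ring, h0]
      congr 1
      rw [show (-2 : ℤ) = -1 + -1 by ring, zpow_add₀ hz, zpow_neg_one]
    have e3 : z ^ (-(s + 2 * 1 - 1)) = z ^ (-s) * z⁻¹ := by
      rw [show -(s + 2 * 1 - 1) = -s + (-1) by ring, h0, zpow_neg_one]
    have e4 : z ^ (-(s + 1)) = z ^ (-s) * z⁻¹ := by
      rw [show -(s + 1) = -s + (-1) by ring, h0, zpow_neg_one]
    rw [e1, e2, e3, e4]
    have : z * z⁻¹ = 1 := mul_inv_cancel₀ hz
    linear_combination (-z ^ (-s)) * this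
  · have e1 : z ^ (-(s - -1)) = z ^ (-s) * z⁻¹ := by
      rw [show -(s - -1) = -s + (-1) by ring, h0, zpow_neg_one]
    have e2 : z ^ (-(s + 2 * -1)) = z ^ (-s) * (z * z) := by
      rw [show -(s + 2 * -1) = -s + 2 by ring, h0]
      congr 1
      rw [show (2 : ℤ) = 1 + 1 by ring, zpow_add₀ hz, zpow_one]
    have e3 : z ^ (-(s + 2 * -1 - -1)) = z ^ (-s) * z := by
      rw [show -(s + 2 * -1 - -1) = -s + 1 by ring, h0, zpow_one]
    have e4 : z ^ (-(s + -1)) = z ^ (-s) * z := by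
      rw [show -(s + -1) = -s + 1 by ring, h0, zpow_one]
    rw [e1, e2, e3, e4]
    have : z * z⁻¹ = 1 := mul_inv_cancel₀ hz
    linear_combination (-z ^ (-s)) * this

/-- `O` and `O'` differ in the edge `ed p`. -/
def Diff (O O' : Set Edg) (p : St) : Prop :=
  (∀ e, e ≠ ed p → (e ∈ O' ↔ e ∈ O)) ∧ (ed p ∈ O' ↔ ed p ∉ O)

theorem Diff.symm {p : St} (h : Diff O O' p) : Diff O' O p :=
  ⟨fun e he => (h.1 e he).symm, by rw [h.2, not_not]⟩

theorem ed_eq {g p : St} (h : ed g = ed p) : g = p ∨ g = pt p := by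
  obtain ⟨⟨x, y⟩, s⟩ := g
  obtain ⟨⟨x', y'⟩, s'⟩ := p
  cases s <;> cases s' <;> simp [ed, pt, mv, Cor.op] at h ⊢ <;> omega

theorem Diff.off {p : St} (h : Diff O O' p) (g : St) (h1 : g ≠ p) (h2 : g ≠ pt p) :
    nxt O' g = nxt O g ∧ eps O' g = eps O g := by
  have h3 : ed g ≠ ed p := fun he => by
    rcases ed_eq he with h | h
    · exact h1 h
    · exact h2 h
  have h4 := h.1 _ h3
  by_cases h5 : ed g ∈ O
  · rw [nxt_open h5, nxt_open (h4.mpr h5), eps_open h5, eps_open (h4.mpr h5)]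
    exact ⟨rfl, rfl⟩
  · have h6 : ed g ∉ O' := fun h' => h5 (h4.mp h')
    rw [nxt_closed h5, nxt_closed h6, eps_closed h5, eps_closed h6]
    exact ⟨rfl, rfl⟩

theorem Diff.at {p : St} (h : Diff O O' p) : nxt O' p = nxt O (pt p) ∧ nxt O' (pt p) = nxt O p ∧
    eps O' p = -eps O p ∧ eps O (pt p) = eps O p := by
  by_cases h5 : ed p ∈ O
  · have h6 : ed p ∉ O' := fun h' => (h.2.mp h') h5
    have h5' : ed (pt p) ∈ O := by rw [ed_pt]; exact h5
    have h6' : ed (pt p) ∉ O' := by rw [ed_pt]; exact h6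
    rw [nxt_open h5, nxt_open h5', nxt_closed h6, nxt_closed h6', eps_open h5, eps_open h5',
      eps_closed h6, sto_eq, sto_eq, pt_pt]
    exact ⟨rfl, rfl, rfl, rfl⟩
  · have h6 : ed p ∈ O' := h.2.mpr h5
    have h5' : ed (pt p) ∉ O := by rw [ed_pt]; exact h5
    have h6' : ed (pt p) ∈ O' := by rw [ed_pt]; exact h6
    rw [nxt_closed h5, nxt_closed h5', nxt_open h6, nxt_open h6', eps_closed h5, eps_closed h5',
      eps_open h6, sto_eq, sto_eq, pt_pt]
    exact ⟨rfl, rfl, rfl, rfl⟩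

theorem Diff.pt {p : St} (h : Diff O O' p) : Diff O O' (pt p) := by
  unfold Diff
  rw [ed_pt]
  exact h

theorem eps_or (O : Set Edg) (g : St) : eps O g = 1 ∨ eps O g = -1 := by
  rcases step_or O g with h | h
  · exact Or.inl h.2
  · exact Or.inr h.2

theorem pairA_aux {z : K} (hz : z ≠ 0) (hW : S_WIND) (H : Cf m k c d O) (H' : Cf m k c d O')
    {p : St} (hd : Diff O O' p) {i j : ℕ} (hi : (nxt O)^[i] (aa c) = p)
    (hj : (nxt O)^[j] (aa c) = pt p) (hij : i < j) (hjT : j < tm (nxt O) (bb d) (aa c)) :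
    F z O c d p + F z O c d (pt p) + (z + z⁻¹) * (F z O' c d p + F z O' c d (pt p)) = 0 := by
  obtain ⟨h1, h2, h3, h4⟩ := hd.at
  obtain ⟨_, g2, g3, g4, g5⟩ := swap (τ := nxt O') (ε := eps O) (ε' := eps O') (nxt_inj O)
    H.hit_aa (fun g => hd.off g) h1 hi hj hij hjT
  have hp : OnP (nxt O) (aa c) (bb d) p := ⟨i, by omega, hi⟩
  have hq : OnP (nxt O) (aa c) (bb d) (pt p) := ⟨j, hjT, hj⟩
  have e1 : nn (nxt O) (eps O) (bb d) (aa c) = 2 := H.N_se hW H.hit_aa
  have e2 : nn (nxt O') (eps O') (bb d) (aa c) = 2 := H'.N_se hW H'.hit_aa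
  have e3 : N O' d p = N O d p := by
    unfold N
    rw [e1, e2] at g5
    linarith
  have e4 : N O d (pt p) = N O d p + 2 * eps O p := by
    have : nn (nxt O') (eps O') (bb d) p = N O' d p := rfl
    rw [this, e3, h3, h4] at g4
    unfold N at g4 ⊢
    linarith
  rw [F_on hp, F_on hq, F_on g2, F_off g3, e3, e4, h3, h4]
  have := F_both_aux hz (N O d p) (eps O p) (eps_or O p)
  rw [add_zero, sub_neg_eq_add]
  exact this

/-- Both states are on the walk of `O`. -/
theorem pairA {z : K} (hz : z ≠ 0) (hW : S_WIND) (H : Cf m k c d O) (H' : Cf m k c d O')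
    {p : St} (hd : Diff O O' p) (hp : OnP (nxt O) (aa c) (bb d) p)
    (hq : OnP (nxt O) (aa c) (bb d) (pt p)) :
    F z O c d p + F z O c d (pt p) + (z + z⁻¹) * (F z O' c d p + F z O' c d (pt p)) = 0 := by
  obtain ⟨i, hi, hi2⟩ := hp
  obtain ⟨j, hj, hj2⟩ := hq
  rcases Nat.lt_trichotomy i j with h | h | h
  · exact pairA_aux hz hW H H' hd hi2 hj2 h hj
  · subst h
    rw [hi2] at hj2
    exact absurd hj2.symm (pt_ne p)
  · have := pairA_aux hz hW H H' hd.pt hj2 (by rw [pt_pt]; exact hi2) h hi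
    rw [pt_pt] at this
    linear_combination this

/-- Only `p` is on the walk without the edge. -/
theorem pairB (H : Cf m k c d O) (H' : Cf m k c d O') {p : St} (hd : Diff O O' p)
    (ho : ed p ∉ O) (hout : ¬ Out c d (pt p)) (hp : OnP (nxt O) (aa c) (bb d) p)
    (hq : ¬ OnP (nxt O) (aa c) (bb d) (pt p)) :
    ¬ Reach O p.1 (mv p) ∧ OnP (nxt O') (aa c) (bb d) p ∧ OnP (nxt O') (aa c) (bb d) (pt p) := by
  have hnr : ¬ Reach O p.1 (mv p) := by
    intro hr
    have h1 := (H.hit_pt ho hr).mp (onP_hit H.hit_aa hp)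
    exact hq ((H.onP_iff hout).mpr h1)
  obtain ⟨i, hi, hi2⟩ := hp
  have hne : ∀ l, l < i → (nxt O)^[l] (aa c) ≠ p ∧ (nxt O)^[l] (aa c) ≠ pt p := by
    intro l hl
    constructor
    · intro he
      rw [← hi2] at he
      have := walk_inj (nxt_inj O) H.hit_aa (by omega) hi.le he
      omega
    · intro he
      exact hq ⟨l, by omega, he⟩
  have hag : ∀ l, l ≤ i → (nxt O')^[l] (aa c) = (nxt O)^[l] (aa c) := fun l hl =>
    agree_iter (n := i) (fun l' hl' => (hd.off _ (hne l' hl').1 (hne l' hl').2).1) hl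
  have hp' : OnP (nxt O') (aa c) (bb d) p := by
    refine ⟨i, ?_, by rw [hag i le_rfl]; exact hi2⟩
    by_contra hle
    have h1 := tm_spec H'.hit_aa
    rw [hag _ (not_lt.mp hle)] at h1
    exact tm_min (by omega) h1
  refine ⟨hnr, hp', ?_⟩
  by_contra hq'
  -- from `p` on, the walk of `O'` avoids `p` and `pt p`
  have hpb := onP_hit H'.hit_aa hp'
  have hstep := hit_step hpb (onP_ne hp')
  have htm : tm (nxt O') (bb d) p = 1 + tm (nxt O') (bb d) (nxt O' p) := by
    have := tm_iter hpb (n := 1) (tm_pos hpb (onP_ne hp'))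
    simpa using this
  have hav : ∀ l, l < tm (nxt O') (bb d) (nxt O' p) →
      (nxt O')^[l] (nxt O' p) ≠ p ∧ (nxt O')^[l] (nxt O' p) ≠ pt p := by
    intro l hl
    rw [← Function.iterate_succ_apply]
    constructor
    · intro he
      have := walk_inj (nxt_inj O') hpb (i := l + 1) (j := 0) (by omega) (by omega) he
      omega
    · intro he
      apply hq'
      obtain ⟨i', hi', hi2'⟩ := hp'
      have h1 := tm_iter H'.hit_aa hi'.le
      rw [hi2'] at h1
      refine ⟨l + 1 + i', by omega, ?_⟩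
      rw [Function.iterate_add_apply, hi2']
      exact he
  obtain ⟨h1, _, _⟩ := agree (σ := nxt O') (τ := nxt O) (ε := eps O') (ε' := eps O) hstep
    (fun l hl => hd.symm.off _ (hav l hl).1 (hav l hl).2)
  have e1 : (nxt O' p).1 = mv p := by
    rw [nxt_open (hd.2.mpr ho)]
    rfl
  apply hnr
  obtain ⟨n, hn⟩ := h1
  have h2 := reach_iter O (nxt O' p) n
  rw [hn, e1] at h2
  have h3 : Hit (nxt O) (bb d) p := by
    rw [← hi2]; exact hit_iter H.hit_aa hi.le
  obtain ⟨n', hn'⟩ := h3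
  have h4 := reach_iter O p n'
  rw [hn'] at h4
  exact h4.trans h2.symm

/-- Both states are on the walk without the edge: the ends of the edge are connected. -/
theorem reach_both (H : Cf m k c d O) {p : St} (hp : OnP (nxt O) (aa c) (bb d) p)
    (hq : OnP (nxt O) (aa c) (bb d) (pt p)) : Reach O p.1 (mv p) := by
  obtain ⟨n, hn⟩ := onP_hit H.hit_aa hp
  obtain ⟨n', hn'⟩ := onP_hit H.hit_aa hq
  have h1 := reach_iter O p n
  have h2 := reach_iter O (pt p) n'
  rw [hn] at h1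
  rw [hn'] at h2
  exact h1.trans h2.symm

/-- Summary: `O` without the edge, `O'` with the edge. -/
theorem pair_all {z : K} (hz : z ≠ 0) (hW : S_WIND) (H : Cf m k c d O) (H' : Cf m k c d O')
    {p : St} (hd : Diff O O' p) (ho : ed p ∉ O) (ho1 : ¬ Out c d p) (ho2 : ¬ Out c d (pt p)) :
    (Reach O p.1 (mv p) ∧
      F z O c d p + F z O c d (pt p) + (z + z⁻¹) * (F z O' c d p + F z O' c d (pt p)) = 0) ∨
    (¬ Reach O p.1 (mv p) ∧
      (z + z⁻¹) * (F z O c d p + F z O c d (pt p)) + (F z O' c d p + F z O' c d (pt p)) = 0) := by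
  by_cases hp : OnP (nxt O) (aa c) (bb d) p <;> by_cases hq : OnP (nxt O) (aa c) (bb d) (pt p)
  · exact Or.inl ⟨reach_both H hp hq, pairA hz hW H H' hd hp hq⟩
  · obtain ⟨h1, h2, h3⟩ := pairB H H' hd ho ho2 hp hq
    refine Or.inr ⟨h1, ?_⟩
    have := pairA hz hW H' H hd.symm h2 h3
    linear_combination this
  · obtain ⟨h1, h2, h3⟩ := pairB H H' hd.pt (by rw [ed_pt]; exact ho)
      (by rw [pt_pt]; exact ho1) hq (by rw [pt_pt]; exact hp)
    rw [pt_pt] at h3
    refine Or.inr ⟨?_, ?_⟩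
    · intro hr
      apply h1
      have e1 : mv (pt p) = p.1 := by
        have := congrArg Prod.fst (pt_pt p)
        exact this
      rw [e1]
      exact hr.symm
    · have := pairA hz hW H' H hd.symm h3 h2
      linear_combination this
  · obtain ⟨h1, h2⟩ := agree_off (ε := eps O) (ε' := eps O') H.hit_aa (fun g => hd.off g) hp hq
    rw [F_off hp, F_off hq, F_off h1, F_off h2]
    by_cases hr : Reach O p.1 (mv p)
    · exact Or.inl ⟨hr, by ring⟩
    · exact Or.inr ⟨hr, by ring⟩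

end Pool.Agent.Q294.SR
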