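import Pool.Agent.H974R2.Lattice

/-!
Corners of the vertices of the square lattice and the loops of a set of open edges.

A state is a vertex `v` with one of its four corners (`se`, `ne`, `nw`, `sw`); it stands for the
point at distance `(1/4, 1/4)` from `v`, in the face `fc g`. The loop through a corner keeps the
vertex on its left: at the edge `ed g` it turns left around `v` if this edge is closed (`stc`) and
follows the edge to its other end if it is open (`sto`).
-/

set_option autoImplicit false

namespace Pool.Agent.Q294.SR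

open H974

/-- The corners of a vertex: south-east, north-east, north-west, south-west. -/
inductive Cor
  | se | ne | nw | sw
  deriving DecidableEq, Fintype

/-- The next corner counterclockwise. -/
def Cor.up : Cor → Cor
  | .se => .ne
  | .ne => .nw
  | .nw => .sw
  | .sw => .se

/-- The next corner clockwise. -/
def Cor.dn : Cor → Cor
  | .se => .sw
  | .ne => .se
  | .nw => .ne
  | .sw => .nw

/-- The opposite corner. -/
def Cor.op : Cor → Cor
  | .se => .nw
  | .ne => .sw
  | .nw => .se
  | .sw => .ne

/-- States: a vertex with one of its corners. -/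
abbrev St := Vtx × Cor

/-- The neighbour of the vertex to the east, north, west, south for the corners se, ne, nw, sw. -/
def mv : St → Vtx
  | (v, .se) => (v.1 + 1, v.2)
  | (v, .ne) => (v.1, v.2 + 1)
  | (v, .nw) => (v.1 - 1, v.2)
  | (v, .sw) => (v.1, v.2 - 1)

/-- The edge from the vertex to this neighbour. -/
def ed : St → Edg
  | (v, .se) => (v.1, v.2, true)
  | (v, .ne) => (v.1, v.2, false)
  | (v, .nw) => (v.1 - 1, v.2, true)
  | (v, .sw) => (v.1, v.2 - 1, false)

/-- The face of the corner. -/
def fc : St → Vtx
  | (v, .se) => (v.1, v.2 - 1)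
  | (v, .ne) => (v.1, v.2)
  | (v, .nw) => (v.1 - 1, v.2)
  | (v, .sw) => (v.1 - 1, v.2 - 1)

/-- The step past a closed edge. -/
def stc (g : St) : St := (g.1, g.2.up)

/-- The step along an open edge. -/
def sto (g : St) : St := (mv g, g.2.dn)

/-- The other state which is about to pass the same edge. -/
def pt (g : St) : St := (mv g, g.2.op)

/-- The state before the step `stc`. -/
def stp (g : St) : St := (g.1, g.2.dn)

@[simp] theorem pt_pt (g : St) : pt (pt g) = g := by
  obtain ⟨⟨x, y⟩, s⟩ := g
  cases s <;> simp [pt, mv, Cor.op]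

@[simp] theorem ed_pt (g : St) : ed (pt g) = ed g := by
  obtain ⟨⟨x, y⟩, s⟩ := g
  cases s <;> simp [pt, mv, Cor.op, ed]

theorem sto_eq (g : St) : sto g = stc (pt g) := by
  obtain ⟨⟨x, y⟩, s⟩ := g
  cases s <;> simp [pt, mv, Cor.op, stc, sto, Cor.up, Cor.dn]

@[simp] theorem stc_stp (g : St) : stc (stp g) = g := by
  obtain ⟨⟨x, y⟩, s⟩ := g
  cases s <;> simp [stc, stp, Cor.up, Cor.dn]

@[simp] theorem stp_stc (g : St) : stp (stc g) = g := by
  obtain ⟨⟨x, y⟩, s⟩ := g
  cases s <;> simp [stc, stp, Cor.up, Cor.dn]

theorem stc_inj {g g' : St} (h : stc g = stc g') : g = g' := by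
  rw [← stp_stc g, h, stp_stc]

theorem pt_ne (g : St) : pt g ≠ g := by
  obtain ⟨⟨x, y⟩, s⟩ := g
  cases s <;> simp [pt, mv, Cor.op]

open Classical in
/-- One step of the loops; `O` is the set of open edges. -/
noncomputable def nxt (O : Set Edg) (g : St) : St := if ed g ∈ O then sto g else stc g

open Classical in
/-- The turn of this step: left (`1`) past a closed edge, right (`-1`) along an open edge. -/
noncomputable def eps (O : Set Edg) (g : St) : ℤ := if ed g ∈ O then -1 else 1

theorem nxt_open {O : Set Edg} {g : St} (h : ed g ∈ O) : nxt O g = sto g := by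
  unfold nxt; rw [if_pos h]

theorem nxt_closed {O : Set Edg} {g : St} (h : ed g ∉ O) : nxt O g = stc g := by
  unfold nxt; rw [if_neg h]

theorem eps_open {O : Set Edg} {g : St} (h : ed g ∈ O) : eps O g = -1 := by
  unfold eps; rw [if_pos h]

theorem eps_closed {O : Set Edg} {g : St} (h : ed g ∉ O) : eps O g = 1 := by
  unfold eps; rw [if_neg h]

theorem nxt_inj (O : Set Edg) : Function.Injective (nxt O) := by
  intro g g' h
  by_cases h1 : ed g ∈ O <;> by_cases h2 : ed g' ∈ O
  · rw [nxt_open h1, nxt_open h2, sto_eq, sto_eq] at h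
    have := stc_inj h
    rw [← pt_pt g, this, pt_pt]
  · rw [nxt_open h1, nxt_closed h2, sto_eq] at h
    have := stc_inj h
    rw [← this, ed_pt] at h2
    exact absurd h1 h2
  · rw [nxt_closed h1, nxt_open h2, sto_eq] at h
    have := stc_inj h
    rw [this, ed_pt] at h1
    exact absurd h2 h1
  · rw [nxt_closed h1, nxt_closed h2] at h
    exact stc_inj h

end Pool.Agent.Q294.SR
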