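import Pool.Agent.Q294.SR.Cnt

/-!
The winding sum of a configuration.
-/

set_option autoImplicit false

namespace Pool.Agent.Q294.SR

open H974 Pool.Agent.Q297.FKL

variable {m k c d : ℕ} {O : Set Edg} {K : Type*} [Field K]

/-- all states of the rectangle -/
noncomputable def RS (m k : ℕ) : Finset St := vts m k ×ˢ Finset.univ

theorem mem_RS {g : St} : g ∈ RS m k ↔ InR m k g.1 := by
  unfold RS vts InR
  simp only [Finset.mem_product, Finset.mem_Icc, Finset.mem_univ, and_true]
  tauto

/-- the winding sum of the whole walk -/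
theorem Cf.total (H : Cf m k c d O) (hW : S_WIND) (z : K) :
    ∑ g ∈ RS m k, F z O c d g = z ^ (-2 : ℤ) - 1 := by
  classical
  unfold F
  rw [← Finset.sum_filter]
  have hset : (RS m k).filter (fun g => OnP (nxt O) (aa c) (bb d) g) =
      (Finset.range (tm (nxt O) (bb d) (aa c))).image (fun j => (nxt O)^[j] (aa c)) := by
    ext g
    simp only [Finset.mem_filter, Finset.mem_image, Finset.mem_range]
    constructor
    · rintro ⟨_, j, hj, rfl⟩
      exact ⟨j, hj, rfl⟩
    · rintro ⟨j, hj, rfl⟩
      exact ⟨mem_RS.mpr (H.iter_R H.hit_aa j), j, hj, rfl⟩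
  rw [hset, Finset.sum_image]
  · have h1 : ∀ j, z ^ (-N O d ((nxt O)^[j] (aa c))) - z ^ (-N O d (nxt O ((nxt O)^[j] (aa c)))) =
        (fun j => z ^ (-N O d ((nxt O)^[j] (aa c)))) j -
          (fun j => z ^ (-N O d ((nxt O)^[j] (aa c)))) (j + 1) := by
      intro j
      simp only [Function.iterate_succ_apply']
    rw [Finset.sum_congr rfl (fun j _ => h1 j), Finset.sum_range_sub']
    simp only [Function.iterate_zero, id]
    have e1 : N O d (aa c) = 2 := H.N_se hW H.hit_aa
    have e2 : N O d ((nxt O)^[tm (nxt O) (bb d) (aa c)] (aa c)) = 0 := by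
      rw [tm_spec H.hit_aa]
      exact nn_self _ _ _
    rw [e1, e2]
    norm_num
  · intro i hi j hj he
    simp only [Finset.coe_range, Set.mem_Iio] at hi hj
    exact walk_inj (nxt_inj O) H.hit_aa hi.le hj.le he

/-- counting -/
theorem cnt {A : Finset St} {P : St → Prop} {S : Finset ℤ} {Q : ℤ → Prop} {φ : ℤ → St}
    [DecidablePred P] [DecidablePred Q] (hφ : Function.Injective φ)
    (h1 : ∀ t ∈ S, Q t → φ t ∈ A ∧ P (φ t)) (h2 : ∀ g ∈ A, P g → ∃ t ∈ S, Q t ∧ φ t = g) :
    ∑ g ∈ A, (if P g then (1 : K) else 0) = ((S.filter Q).card : K) := by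
  classical
  rw [Finset.sum_ite, Finset.sum_const_zero, add_zero, Finset.sum_const, nsmul_eq_mul, mul_one]
  congr 1
  have : A.filter P = (S.filter Q).image φ := by
    ext g
    simp only [Finset.mem_filter, Finset.mem_image]
    constructor
    · rintro ⟨ha, hp⟩
      obtain ⟨t, ht, hq, rfl⟩ := h2 g ha hp
      exact ⟨t, ⟨ht, hq⟩, rfl⟩
    · rintro ⟨t, ⟨ht, hq⟩, rfl⟩
      exact h1 t ht hq
  rw [this, Finset.card_image_of_injective _ hφ]

section classes

variable (m k c d : ℕ) (O : Set Edg)

/-- on the right side -/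
def PR (g : St) : Prop := g.2 = .se ∧ g.1.1 = m ∧ OnP (nxt O) (aa c) (bb d) g
/-- on the upper side -/
def PT (g : St) : Prop := g.2 = .ne ∧ g.1.2 = k ∧ OnP (nxt O) (aa c) (bb d) g
/-- on the left side, above the arc -/
def PL (g : St) : Prop := g.2 = .nw ∧ g.1.1 = 0 ∧ d < g.1.2 ∧ OnP (nxt O) (aa c) (bb d) g
/-- on the lower side, right of the arc -/
def PB (g : St) : Prop := g.2 = .sw ∧ g.1.2 = 0 ∧ c < g.1.1 ∧ OnP (nxt O) (aa c) (bb d) g
/-- at the lower part of the arc -/
def Pb (g : St) : Prop := g.2 = .nw ∧ g.1.2 = 0 ∧ 1 ≤ g.1.1 ∧ g.1.1 ≤ c ∧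
  OnP (nxt O) (aa c) (bb d) g
/-- at the left part of the arc -/
def Pl (g : St) : Prop := g.2 = .ne ∧ g.1.1 = 0 ∧ g.1.2 < d ∧ OnP (nxt O) (aa c) (bb d) g

end classes

theorem mem_blk {e : Edg} : e ∈ blk m k c d ↔ e ∈ RE 0 m 0 k ∧ e ∉ arc c d := Finset.mem_sdiff

open Classical in
/-- The contribution of a state whose edge is not random. -/
theorem Cf.bdry (H : Cf m k c d O) (hW : S_WIND) (z : K) {g : St} (hg : g ∈ RS m k) :
    (if ed g ∈ blk m k c d then 0 else F z O c d g) =
      (z ^ (-2 : ℤ) - z ^ (-1 : ℤ)) * (if PR m c d O g then 1 else 0) +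
      (z ^ (-1 : ℤ) - 1) * (if PT k c d O g then 1 else 0) +
      (1 - z) * (if PL c d O g then 1 else 0) +
      (z ^ (-3 : ℤ) - z ^ (-2 : ℤ)) * (if PB c d O g then 1 else 0) +
      (1 - z ^ (-1 : ℤ)) * (if Pb c d O g then 1 else 0) +
      (z ^ (-1 : ℤ) - z ^ (-2 : ℤ)) * (if Pl c d O g then 1 else 0) := by
  have hc := H.hc
  have hd := H.hd
  rw [mem_RS] at hg
  obtain ⟨⟨x, y⟩, s⟩ := g
  simp only [InR] at hg
  obtain ⟨hx0, hxm, hy0, hyk⟩ := hg
  cases s
  · -- se
    have n2 : ¬ PT k c d O ((x, y), .se) := fun h => by simp [PT] at h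
    have n3 : ¬ PL c d O ((x, y), .se) := fun h => by simp [PL] at h
    have n4 : ¬ PB c d O ((x, y), .se) := fun h => by simp [PB] at h
    have n5 : ¬ Pb c d O ((x, y), .se) := fun h => by simp [Pb] at h
    have n6 : ¬ Pl c d O ((x, y), .se) := fun h => by simp [Pl] at h
    rw [if_neg n2, if_neg n3, if_neg n4, if_neg n5, if_neg n6]
    have hed : ed ((x, y), .se) = (x, y, true) := rfl
    simp only [hed, mem_blk, mem_RE_true, mem_arc]
    by_cases hx : x = m
    · subst hx
      rw [if_neg (by rintro ⟨h, _⟩; omega)]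
      by_cases hP : OnP (nxt O) (aa c) (bb d) (((m : ℤ), y), .se)
      · have hR : PR m c d O (((m : ℤ), y), .se) := ⟨rfl, rfl, hP⟩
        rw [if_pos hR]
        unfold F
        rw [if_pos hP, (H.v_right hW hP).1, (H.v_right hW hP).2]
        norm_num
      · have hR : ¬ PR m c d O (((m : ℤ), y), .se) := fun h => hP h.2.2
        rw [if_neg hR, F_off hP]
        ring
    · have hR : ¬ PR m c d O ((x, y), .se) := fun h => hx h.2.1
      rw [if_neg hR]
      by_cases ha : y = 0 ∧ x < c
      · obtain ⟨rfl, ha⟩ := ha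
        rw [if_neg (by rintro ⟨_, h⟩; exact h (Or.inl ⟨trivial, rfl, hx0, ha⟩)),
          F_off (fun h => H.onP_not_out h (show Out c d ((x, 0), .se) from ⟨rfl, hx0, ha⟩))]
        ring
      · rw [if_pos ⟨by omega, by simp only [true_and, Bool.true_eq_false, false_and, or_false]; omega⟩]
        ring
  · -- ne
    have n1 : ¬ PR m c d O ((x, y), .ne) := fun h => by simp [PR] at h
    have n3 : ¬ PL c d O ((x, y), .ne) := fun h => by simp [PL] at h
    have n4 : ¬ PB c d O ((x, y), .ne) := fun h => by simp [PB] at h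
    have n5 : ¬ Pb c d O ((x, y), .ne) := fun h => by simp [Pb] at h
    rw [if_neg n1, if_neg n3, if_neg n4, if_neg n5]
    have hed : ed ((x, y), .ne) = (x, y, false) := rfl
    simp only [hed, mem_blk, mem_RE_false, mem_arc]
    by_cases hy : y = k
    · subst hy
      have n6 : ¬ Pl c d O ((x, (k : ℤ)), .ne) := fun h => by
        have := h.2.2.1; simp only at this; omega
      rw [if_neg (by rintro ⟨h, _⟩; omega), if_neg n6]
      by_cases hP : OnP (nxt O) (aa c) (bb d) ((x, (k : ℤ)), .ne)
      · have hT : PT k c d O ((x, (k : ℤ)), .ne) := ⟨rfl, rfl, hP⟩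
        rw [if_pos hT]
        unfold F
        rw [if_pos hP, (H.v_top hW hP).1, (H.v_top hW hP).2]
        norm_num
      · have hT : ¬ PT k c d O ((x, (k : ℤ)), .ne) := fun h => hP h.2.2
        rw [if_neg hT, F_off hP]
        ring
    · have hT : ¬ PT k c d O ((x, y), .ne) := fun h => hy h.2.1
      rw [if_neg hT]
      by_cases ha : x = 0 ∧ y < d
      · obtain ⟨rfl, ha⟩ := ha
        rw [if_neg (by rintro ⟨_, h⟩; exact h (Or.inr ⟨trivial, rfl, hy0, ha⟩))]
        by_cases hP : OnP (nxt O) (aa c) (bb d) ((0, y), .ne)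
        · have hl : Pl c d O ((0, y), .ne) := ⟨rfl, rfl, ha, hP⟩
          rw [if_pos hl]
          unfold F
          rw [if_pos hP, (H.v_alft hW hy0 ha hP).1, (H.v_alft hW hy0 ha hP).2]
          norm_num
        · have hl : ¬ Pl c d O ((0, y), .ne) := fun h => hP h.2.2.2
          rw [if_neg hl, F_off hP]
          ring
      · have hl : ¬ Pl c d O ((x, y), .ne) := fun h => ha ⟨h.2.1, h.2.2.1⟩
        rw [if_neg hl, if_pos ⟨by omega, by
          simp only [Bool.false_eq_true, false_and, true_and, false_or]; omega⟩]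
        ring
  · -- nw
    have n1 : ¬ PR m c d O ((x, y), .nw) := fun h => by simp [PR] at h
    have n2 : ¬ PT k c d O ((x, y), .nw) := fun h => by simp [PT] at h
    have n4 : ¬ PB c d O ((x, y), .nw) := fun h => by simp [PB] at h
    have n6 : ¬ Pl c d O ((x, y), .nw) := fun h => by simp [Pl] at h
    rw [if_neg n1, if_neg n2, if_neg n4, if_neg n6]
    have hed : ed ((x, y), .nw) = (x - 1, y, true) := rfl
    simp only [hed, mem_blk, mem_RE_true, mem_arc]
    by_cases hx : x = 0
    · subst hx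
      have n5 : ¬ Pb c d O ((0, y), .nw) := fun h => by
        have := h.2.2.1; simp only at this; omega
      rw [if_neg (by rintro ⟨h, _⟩; omega), if_neg n5]
      by_cases hyd : y ≤ d
      · have n3 : ¬ PL c d O ((0, y), .nw) := fun h => by
          have := h.2.2.1; simp only at this; omega
        rw [if_neg n3, F_off (fun h => H.onP_not_out h (show Out c d ((0, y), .nw) from ⟨rfl, hy0, hyd⟩))]
        ring
      · by_cases hP : OnP (nxt O) (aa c) (bb d) ((0, y), .nw)
        · have hL : PL c d O ((0, y), .nw) := ⟨rfl, rfl, not_le.mp hyd, hP⟩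
          rw [if_pos hL]
          unfold F
          rw [if_pos hP, (H.v_left hW (not_le.mp hyd) hP).1, (H.v_left hW (not_le.mp hyd) hP).2]
          norm_num
        · have hL : ¬ PL c d O ((0, y), .nw) := fun h => hP h.2.2.2
          rw [if_neg hL, F_off hP]
          ring
    · have hL : ¬ PL c d O ((x, y), .nw) := fun h => hx h.2.1
      rw [if_neg hL]
      by_cases ha : y = 0 ∧ x ≤ c
      · obtain ⟨rfl, ha⟩ := ha
        rw [if_neg (by rintro ⟨_, h⟩; exact h (Or.inl ⟨trivial, rfl, by omega, by omega⟩))]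
        obtain ⟨x', rfl⟩ : ∃ x', x = x' + 1 := ⟨x - 1, by ring⟩
        by_cases hP : OnP (nxt O) (aa c) (bb d) ((x' + 1, 0), .nw)
        · have hb : Pb c d O ((x' + 1, 0), .nw) := ⟨rfl, rfl, by simp only; omega, ha, hP⟩
          rw [if_pos hb]
          unfold F
          rw [if_pos hP, (H.v_alow hW (by omega) (by omega) hP).1,
            (H.v_alow hW (by omega) (by omega) hP).2]
          norm_num
        · have hb : ¬ Pb c d O ((x' + 1, 0), .nw) := fun h => hP h.2.2.2.2
          rw [if_neg hb, F_off hP]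
          ring
      · have hb : ¬ Pb c d O ((x, y), .nw) := fun h => ha ⟨h.2.1, h.2.2.2.1⟩
        rw [if_neg hb, if_pos ⟨by omega, by
          simp only [true_and, Bool.true_eq_false, false_and, or_false]; omega⟩]
        ring
  · -- sw
    have n1 : ¬ PR m c d O ((x, y), .sw) := fun h => by simp [PR] at h
    have n2 : ¬ PT k c d O ((x, y), .sw) := fun h => by simp [PT] at h
    have n3 : ¬ PL c d O ((x, y), .sw) := fun h => by simp [PL] at h
    have n5 : ¬ Pb c d O ((x, y), .sw) := fun h => by simp [Pb] at h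
    have n6 : ¬ Pl c d O ((x, y), .sw) := fun h => by simp [Pl] at h
    rw [if_neg n1, if_neg n2, if_neg n3, if_neg n5, if_neg n6]
    have hed : ed ((x, y), .sw) = (x, y - 1, false) := rfl
    simp only [hed, mem_blk, mem_RE_false, mem_arc]
    by_cases hy : y = 0
    · subst hy
      rw [if_neg (by rintro ⟨h, _⟩; omega)]
      by_cases hxc : x ≤ c
      · have n4 : ¬ PB c d O ((x, 0), .sw) := fun h => by
          have := h.2.2.1; simp only at this; omega
        rw [if_neg n4, F_off (fun h => H.onP_not_out h (show Out c d ((x, 0), .sw) from Or.inr ⟨rfl, hx0, hxc⟩))]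
        ring
      · by_cases hP : OnP (nxt O) (aa c) (bb d) ((x, 0), .sw)
        · have hB : PB c d O ((x, 0), .sw) := ⟨rfl, rfl, not_le.mp hxc, hP⟩
          rw [if_pos hB]
          unfold F
          rw [if_pos hP, (H.v_low hW hP).1, (H.v_low hW hP).2]
          norm_num
        · have hB : ¬ PB c d O ((x, 0), .sw) := fun h => hP h.2.2.2
          rw [if_neg hB, F_off hP]
          ring
    · have hB : ¬ PB c d O ((x, y), .sw) := fun h => hy h.2.1
      rw [if_neg hB]
      by_cases ha : x = 0 ∧ y ≤ d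
      · obtain ⟨rfl, ha⟩ := ha
        rw [if_neg (by rintro ⟨_, h⟩; exact h (Or.inr ⟨trivial, rfl, by omega, by omega⟩)),
          F_off (fun h => H.onP_not_out h (show Out c d ((0, y), .sw) from Or.inl ⟨rfl, hy0, ha⟩))]
        ring
      · rw [if_pos ⟨by omega, by
          simp only [Bool.false_eq_true, false_and, true_and, false_or]; omega⟩]
        ring

end Pool.Agent.Q294.SR
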