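import Mathlib

/-!
The walk of an injective map until it hits a point, and the sum of a function along the walk.
-/

set_option autoImplicit false

namespace Pool.Agent.Q294.SR

variable {α : Type*}

/-- The walk from `g` hits `b`. -/
def Hit (σ : α → α) (b g : α) : Prop := ∃ n, σ^[n] g = b

open Classical in
/-- The hitting time. -/
noncomputable def tm (σ : α → α) (b g : α) : ℕ := sInf {n | σ^[n] g = b}

/-- The sum of `ε` along the walk until it hits `b`. -/
noncomputable def nn (σ : α → α) (ε : α → ℤ) (b g : α) : ℤ :=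
  ∑ j ∈ Finset.range (tm σ b g), ε (σ^[j] g)

/-- `g` is on the walk from `a` to `b`, before `b`. -/
def OnP (σ : α → α) (a b g : α) : Prop := ∃ j, j < tm σ b a ∧ σ^[j] a = g

theorem tm_spec {σ : α → α} {b g : α} (h : Hit σ b g) : σ^[tm σ b g] g = b :=
  Nat.sInf_mem (s := {n | σ^[n] g = b}) h

theorem tm_min {σ : α → α} {b g : α} {n : ℕ} (h : n < tm σ b g) : σ^[n] g ≠ b :=
  fun h' => Nat.notMem_of_lt_sInf (s := {n | σ^[n] g = b}) h h'

theorem tm_le {σ : α → α} {b g : α} {n : ℕ} (h : σ^[n] g = b) : tm σ b g ≤ n :=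
  Nat.sInf_le (s := {n | σ^[n] g = b}) h

theorem tm_eq {σ : α → α} {b g : α} {n : ℕ} (h : σ^[n] g = b) (h' : ∀ i, i < n → σ^[i] g ≠ b) :
    tm σ b g = n := by
  apply le_antisymm (tm_le h)
  by_contra hlt
  exact h' _ (not_le.mp hlt) (tm_spec ⟨n, h⟩)

@[simp] theorem tm_self (σ : α → α) (b : α) : tm σ b b = 0 := tm_eq rfl (fun i hi => by omega)

@[simp] theorem nn_self (σ : α → α) (ε : α → ℤ) (b : α) : nn σ ε b b = 0 := by
  unfold nn; simp

/-- adding a piece before the hitting time -/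
theorem tm_add {σ : α → α} {b g g' : α} {n : ℕ} (h : σ^[n] g = g') (hn : ∀ i, i < n → σ^[i] g ≠ b)
    (hh : Hit σ b g') : Hit σ b g ∧ tm σ b g = n + tm σ b g' := by
  have h1 : σ^[n + tm σ b g'] g = b := by
    rw [add_comm, Function.iterate_add_apply, h]
    exact tm_spec hh
  refine ⟨⟨_, h1⟩, tm_eq h1 ?_⟩
  intro i hi
  by_cases h2 : i < n
  · exact hn i h2
  · obtain ⟨l, rfl⟩ := Nat.exists_eq_add_of_le (not_lt.mp h2)
    rw [add_comm n l, Function.iterate_add_apply, h]
    exact tm_min (by omega)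

theorem nn_add {σ : α → α} (ε : α → ℤ) {b g g' : α} {n : ℕ} (h : σ^[n] g = g')
    (hn : ∀ i, i < n → σ^[i] g ≠ b) (hh : Hit σ b g') :
    nn σ ε b g = (∑ j ∈ Finset.range n, ε (σ^[j] g)) + nn σ ε b g' := by
  unfold nn
  rw [(tm_add h hn hh).2, Finset.sum_range_add]
  congr 1
  apply Finset.sum_congr rfl
  intro j _
  rw [add_comm n j, Function.iterate_add_apply, h]

theorem hit_iter {σ : α → α} {b g : α} (h : Hit σ b g) {n : ℕ} (hn : n ≤ tm σ b g) :
    Hit σ b (σ^[n] g) := by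
  refine ⟨tm σ b g - n, ?_⟩
  rw [← Function.iterate_add_apply, Nat.sub_add_cancel hn]
  exact tm_spec h

theorem tm_iter {σ : α → α} {b g : α} (h : Hit σ b g) {n : ℕ} (hn : n ≤ tm σ b g) :
    tm σ b g = n + tm σ b (σ^[n] g) :=
  (tm_add rfl (fun i hi => tm_min (by omega)) (hit_iter h hn)).2

theorem nn_iter {σ : α → α} (ε : α → ℤ) {b g : α} (h : Hit σ b g) {n : ℕ} (hn : n ≤ tm σ b g) :
    nn σ ε b g = (∑ j ∈ Finset.range n, ε (σ^[j] g)) + nn σ ε b (σ^[n] g) :=
  nn_add ε rfl (fun i hi => tm_min (by omega)) (hit_iter h hn)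

theorem tm_pos {σ : α → α} {b g : α} (h : Hit σ b g) (hg : g ≠ b) : 0 < tm σ b g := by
  rcases Nat.eq_zero_or_pos (tm σ b g) with h0 | h0
  · have := tm_spec h
    rw [h0] at this
    exact absurd this hg
  · exact h0

theorem hit_step {σ : α → α} {b g : α} (h : Hit σ b g) (hg : g ≠ b) : Hit σ b (σ g) :=
  hit_iter h (n := 1) (tm_pos h hg)

theorem nn_step {σ : α → α} (ε : α → ℤ) {b g : α} (h : Hit σ b g) (hg : g ≠ b) :
    nn σ ε b g = ε g + nn σ ε b (σ g) := by
  have := nn_iter ε h (n := 1) (tm_pos h hg)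
  simpa using this

/-- the states of the walk are distinct -/
theorem walk_inj {σ : α → α} (hσ : Function.Injective σ) {b g : α} (h : Hit σ b g) {i j : ℕ}
    (hi : i ≤ tm σ b g) (hj : j ≤ tm σ b g) (hij : σ^[i] g = σ^[j] g) : i = j := by
  wlog hlt : i < j with H
  · rcases Nat.lt_trichotomy i j with h1 | h1 | h1
    · exact absurd h1 hlt
    · exact h1
    · exact (H hσ h hj hi hij.symm h1).symm
  exfalso
  obtain ⟨l, rfl⟩ := Nat.exists_eq_add_of_lt hlt
  have h1 : σ^[l + 1] g = g := by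
    have h2 : σ^[i] (σ^[l + 1] g) = σ^[i] g := by
      rw [← Function.iterate_add_apply, hij]
      congr 1
    exact (hσ.iterate i) h2
  have h3 : σ^[tm σ b g - (l + 1)] g = b := by
    have h4 := tm_spec h
    rw [show tm σ b g = (tm σ b g - (l + 1)) + (l + 1) by omega, Function.iterate_add_apply, h1]
      at h4
    exact h4
  exact tm_min (by omega) h3

theorem onP_hit {σ : α → α} {a b g : α} (ha : Hit σ b a) (h : OnP σ a b g) : Hit σ b g := by
  obtain ⟨j, hj, rfl⟩ := h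
  exact hit_iter ha hj.le

theorem onP_ne {σ : α → α} {a b g : α} (h : OnP σ a b g) : g ≠ b := by
  obtain ⟨j, hj, rfl⟩ := h
  exact tm_min hj

theorem onP_start {σ : α → α} {a b : α} (ha : Hit σ b a) (hab : a ≠ b) : OnP σ a b a :=
  ⟨0, tm_pos ha hab, rfl⟩

theorem onP_step {σ : α → α} {a b g : α} (h : OnP σ a b g) : OnP σ a b (σ g) ∨ σ g = b := by
  obtain ⟨j, hj, rfl⟩ := h
  have hh : Hit σ b a := Nat.nonempty_of_pos_sInf (s := {n | σ^[n] a = b}) (by
    have : 0 < tm σ b a := by omega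
    exact this)
  have h0 : σ (σ^[j] a) = σ^[j + 1] a := (Function.iterate_succ_apply' σ j a).symm
  rcases Nat.lt_or_eq_of_le (Nat.succ_le_of_lt hj) with h2 | h2
  · exact Or.inl ⟨j + 1, h2, h0.symm⟩
  · right
    rw [h0, show j + 1 = tm σ b a from h2]
    exact tm_spec hh

/-- Two maps which agree along the walk have the same walk. -/
theorem agree_iter {σ τ : α → α} {g : α} {n : ℕ} (h : ∀ j, j < n → τ (σ^[j] g) = σ (σ^[j] g))
    {j : ℕ} (hj : j ≤ n) : τ^[j] g = σ^[j] g := by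
  induction j with
  | zero => rfl
  | succ j ih =>
    rw [Function.iterate_succ_apply', Function.iterate_succ_apply', ih (by omega), h j (by omega)]

theorem agree {σ τ : α → α} {ε ε' : α → ℤ} {b g : α} (hh : Hit σ b g)
    (h : ∀ j, j < tm σ b g → τ (σ^[j] g) = σ (σ^[j] g) ∧ ε' (σ^[j] g) = ε (σ^[j] g)) :
    Hit τ b g ∧ tm τ b g = tm σ b g ∧ nn τ ε' b g = nn σ ε b g := by
  have h1 : ∀ j, j ≤ tm σ b g → τ^[j] g = σ^[j] g := fun j hj =>
    agree_iter (fun i hi => (h i hi).1) hj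
  have h2 : τ^[tm σ b g] g = b := by rw [h1 _ le_rfl]; exact tm_spec hh
  have h3 : tm τ b g = tm σ b g := tm_eq h2 (fun i hi => by rw [h1 i hi.le]; exact tm_min hi)
  refine ⟨⟨_, h2⟩, h3, ?_⟩
  unfold nn
  rw [h3]
  apply Finset.sum_congr rfl
  intro j hj
  have hj' := Finset.mem_range.mp hj
  rw [h1 j hj'.le, (h j hj').2]

/-- Neither point is on the walk: nothing changes. -/
theorem agree_off {σ τ : α → α} {ε ε' : α → ℤ} {a b p q : α} (hh : Hit σ b a)
    (h : ∀ g, g ≠ p → g ≠ q → τ g = σ g ∧ ε' g = ε g) (hp : ¬ OnP σ a b p) (hq : ¬ OnP σ a b q) :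
    ¬ OnP τ a b p ∧ ¬ OnP τ a b q := by
  have h1 : ∀ j, j < tm σ b a → τ (σ^[j] a) = σ (σ^[j] a) ∧ ε' (σ^[j] a) = ε (σ^[j] a) := by
    intro j hj
    exact h _ (fun he => hp ⟨j, hj, he⟩) (fun he => hq ⟨j, hj, he⟩)
  obtain ⟨_, h3, _⟩ := agree hh h1
  have h4 : ∀ j, j ≤ tm σ b a → τ^[j] a = σ^[j] a := fun j hj =>
    agree_iter (fun i hi => (h1 i hi).1) hj
  constructor
  · rintro ⟨j, hj, he⟩
    rw [h3] at hj
    exact hp ⟨j, hj, by rw [← h4 j hj.le]; exact he⟩
  · rintro ⟨j, hj, he⟩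
    rw [h3] at hj
    exact hq ⟨j, hj, by rw [← h4 j hj.le]; exact he⟩

/-- Both points are on the walk, `p` first: after the exchange only `p` is on the walk. -/
theorem swap {σ τ : α → α} {ε ε' : α → ℤ} {a b p q : α} (hσ : Function.Injective σ)
    (ha : Hit σ b a) (h : ∀ g, g ≠ p → g ≠ q → τ g = σ g ∧ ε' g = ε g) (hpq : τ p = σ q)
    {i j : ℕ} (hi : σ^[i] a = p) (hj : σ^[j] a = q) (hij : i < j) (hjT : j < tm σ b a) :
    Hit τ b a ∧ OnP τ a b p ∧ ¬ OnP τ a b q ∧
      nn τ ε' b p - ε' p = nn σ ε b q - ε q ∧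
      nn σ ε b a - nn σ ε b p = nn τ ε' b a - nn τ ε' b p := by
  have hne : ∀ l, l ≤ tm σ b a → l ≠ i → l ≠ j → σ^[l] a ≠ p ∧ σ^[l] a ≠ q := by
    intro l hl h1 h2
    constructor
    · intro he
      rw [← hi] at he
      exact h1 (walk_inj hσ ha hl (by omega) he)
    · intro he
      rw [← hj] at he
      exact h2 (walk_inj hσ ha hl (by omega) he)
  -- the first part
  have hpre : ∀ l, l ≤ i → τ^[l] a = σ^[l] a := fun l hl =>
    agree_iter (n := i) (fun l' hl' => (h _ (hne l' (by omega) (by omega) (by omega)).1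
      (hne l' (by omega) (by omega) (by omega)).2).1) hl
  -- the last part
  obtain ⟨o, ho⟩ : ∃ o, o = σ q := ⟨_, rfl⟩
  have ho' : σ^[j + 1] a = o := by rw [Function.iterate_succ_apply', hj, ho]
  have hoT : Hit σ b o := by rw [← ho']; exact hit_iter ha (by omega)
  have htm : tm σ b a = (j + 1) + tm σ b o := by
    rw [← ho']; exact tm_iter ha (by omega)
  have hol : ∀ l, σ^[l] o = σ^[j + 1 + l] a := by
    intro l
    rw [add_comm (j + 1) l, Function.iterate_add_apply, ho']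
  have hag : ∀ l, l < tm σ b o → τ (σ^[l] o) = σ (σ^[l] o) ∧ ε' (σ^[l] o) = ε (σ^[l] o) := by
    intro l hl
    rw [hol l]
    exact h _ (hne _ (by omega) (by omega) (by omega)).1 (hne _ (by omega) (by omega) (by omega)).2
  obtain ⟨hτo, htmo, hnno⟩ := agree hoT hag
  have holτ : ∀ l, l ≤ tm σ b o → τ^[l] o = σ^[l] o := fun l hl =>
    agree_iter (fun i hi => (hag i hi).1) hl
  -- together
  have hτi : τ^[i] a = p := by rw [hpre i le_rfl, hi]
  have hτi1 : τ^[i + 1] a = o := by rw [Function.iterate_succ_apply', hτi, hpq, ho]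
  have hnb : ∀ l, l < i + 1 → τ^[l] a ≠ b := by
    intro l hl
    rw [hpre l (by omega)]
    exact tm_min (by omega)
  obtain ⟨hτa, htma⟩ := tm_add hτi1 hnb hτo
  refine ⟨hτa, ⟨i, by omega, hτi⟩, ?_, ?_, ?_⟩
  · rintro ⟨l, hl, he⟩
    by_cases hl2 : l < i + 1
    · rw [hpre l (by omega)] at he
      exact (fun h1 => absurd (walk_inj hσ ha (by omega) (by omega) h1) (by omega)) (he.trans hj.symm)
    · obtain ⟨l', rfl⟩ := Nat.exists_eq_add_of_le (not_lt.mp hl2)
      rw [add_comm (i + 1) l', Function.iterate_add_apply, hτi1, holτ l' (by omega), hol] at he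
      exact absurd (walk_inj hσ ha (by omega) (by omega) (he.trans hj.symm)) (by omega)
  · have hp : Hit τ b p := by
      rw [← hτi]; exact hit_iter hτa (by omega)
    have hpb : p ≠ b := by rw [← hi]; exact tm_min (by omega)
    have hqb : q ≠ b := by rw [← hj]; exact tm_min (by omega)
    have hq : Hit σ b q := by rw [← hj]; exact hit_iter ha (by omega)
    rw [nn_step ε' hp hpb, nn_step ε hq hqb, hpq, ← ho, hnno]
    ring
  · have h1 := nn_iter ε ha (n := i) (by omega)
    have h2 := nn_iter ε' hτa (n := i) (by omega)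
    rw [h1, h2, hi, hτi]
    have h3 : ∑ l ∈ Finset.range i, ε (σ^[l] a) = ∑ l ∈ Finset.range i, ε' (τ^[l] a) := by
      apply Finset.sum_congr rfl
      intro l hl
      have hl' := Finset.mem_range.mp hl
      rw [hpre l hl'.le]
      exact ((h _ (hne l (by omega) (by omega) (by omega)).1
        (hne l (by omega) (by omega) (by omega)).2).2).symm
    rw [h3]
    ring

end Pool.Agent.Q294.SR
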